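import Mathlib
import Pool.Agent.Work.MP_c629c8_al.IndLim

/-!
# A direct sum of countably many copies of the 2-adic integers

Let `D` be the Prüfer 2-group and `P` the dual group of `D ^ ℕ` (the direct sum of countably many
copies of the 2-adic integers with the box topology). Then `ℝ ^ ℕ × P` has a Hausdorff quotient
that is not semireflexive.
-/

namespace Pool.Agent.Work.MP_c629c8_al

open Topology

namespace Ex

/-- the 2-power torsion of the circle -/
def S : AddSubgroup UnitAddCircle where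
  carrier := {t | ∃ a : ℕ, 2 ^ a • t = 0}
  zero_mem' := ⟨0, smul_zero _⟩
  add_mem' := by
    rintro x y ⟨a, ha⟩ ⟨b, hb⟩
    refine ⟨a + b, ?_⟩
    rw [smul_add, pow_add, mul_smul, mul_smul, hb, smul_zero, add_zero, ← mul_smul, mul_comm,
      mul_smul, ha, smul_zero]
  neg_mem' := by
    rintro x ⟨a, ha⟩
    exact ⟨a, by rw [smul_neg, ha, neg_zero]⟩

/-- the Prüfer 2-group -/
def D : Type := S

noncomputable instance : AddCommGroup D := inferInstanceAs (AddCommGroup S)

instance : TopologicalSpace D := ⊥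

instance : DiscreteTopology D := ⟨rfl⟩

/-- the embedding in the circle -/
noncomputable def ι : D →+ UnitAddCircle := S.subtype

lemma ι_injective : Function.Injective ι := Subtype.val_injective

lemma exists_pow (d : D) : ∃ a : ℕ, 2 ^ a • d = 0 := by
  obtain ⟨a, ha⟩ := d.2
  refine ⟨a, ι_injective ?_⟩
  rw [map_nsmul, map_zero]
  exact ha

lemma coe_div (a : ℕ) : 2 ^ a • (((1 / 2 ^ a : ℝ)) : UnitAddCircle) = 0 := by
  rw [← AddCircle.coe_nsmul, nsmul_eq_mul, AddCircle.coe_eq_zero_iff]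
  refine ⟨1, ?_⟩
  rw [one_smul]
  push_cast
  field_simp

/-- the standard generators -/
noncomputable def u (a : ℕ) : D := ⟨((1 / 2 ^ a : ℝ) : UnitAddCircle), a, coe_div a⟩

lemma ι_u (a : ℕ) : ι (u a) = ((1 / 2 ^ a : ℝ) : UnitAddCircle) := rfl

lemma u_eq {a b : ℕ} (h : b ≤ a) : u b = 2 ^ (a - b) • u a := by
  apply ι_injective
  rw [map_nsmul, ι_u, ι_u, ← AddCircle.coe_nsmul, nsmul_eq_mul]
  congr 1
  push_cast
  rw [show (2 : ℝ) ^ a = 2 ^ (a - b) * 2 ^ b by rw [← pow_add]; congr 1; omega]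
  field_simp

lemma pow_u (a : ℕ) : 2 ^ a • u a = 0 := by
  apply ι_injective
  rw [map_nsmul, map_zero, ι_u, coe_div]

lemma exists_gen (y : D) (hy : y ≠ 0) : ∃ b : ℕ, 0 < b ∧ (∃ k : ℤ, y = k • u b) ∧
    ∃ l : ℤ, u b = l • y := by
  classical
  set b := Nat.find (exists_pow y) with hb
  have h1 : 2 ^ b • y = 0 := Nat.find_spec (exists_pow y)
  have hb0 : 0 < b := by
    rcases Nat.eq_zero_or_pos b with h0 | h0
    · rw [h0, pow_zero, one_smul] at h1
      exact absurd h1 hy
    · exact h0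
  obtain ⟨x, hx⟩ := QuotientAddGroup.mk_surjective (ι y)
  have hx' : (x : UnitAddCircle) = ι y := hx
  have h2 : ((2 ^ b * x : ℝ) : UnitAddCircle) = 0 := by
    have := congrArg ι h1
    rw [map_nsmul, map_zero, ← hx', ← AddCircle.coe_nsmul, nsmul_eq_mul] at this
    push_cast at this
    exact this
  rw [AddCircle.coe_eq_zero_iff] at h2
  obtain ⟨k, hk⟩ := h2
  simp only [zsmul_eq_mul, mul_one] at hk
  have hyk : y = k • u b := by
    apply ι_injective
    rw [map_zsmul, ← hx', ι_u, ← AddCircle.coe_zsmul, zsmul_eq_mul]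
    congr 1
    rw [hk]
    field_simp
  have hodd : ¬ (2 : ℤ) ∣ k := by
    rintro ⟨k', rfl⟩
    have h3 : 2 ^ (b - 1) • y = 0 := by
      rw [hyk]
      have h4 : (2 ^ (b - 1) : ℕ) • (2 * k') • u b = k' • (2 ^ b • u b) := by
        rw [← natCast_zsmul, ← natCast_zsmul, smul_smul, smul_smul]
        congr 1
        push_cast
        have : (2 : ℤ) ^ b = 2 ^ (b - 1) * 2 := by
          rw [← pow_succ]
          congr 1
          omega
        rw [this]
        ring
      rw [h4, pow_u, smul_zero]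
    exact Nat.find_min (exists_pow y) (by omega : b - 1 < b) h3
  refine ⟨b, hb0, ⟨k, hyk⟩, ?_⟩
  have hcop : IsCoprime k ((2 : ℤ) ^ b) := by
    apply IsCoprime.pow_right
    rw [isCoprime_comm, Int.isCoprime_iff_gcd_eq_one]
    have h5 : Int.gcd 2 k ∣ 2 := by
      have := Int.gcd_dvd_left (2 : ℤ) k
      exact_mod_cast this
    rcases (Nat.dvd_prime Nat.prime_two).1 h5 with h6 | h6
    · exact h6
    · exfalso
      apply hodd
      have := Int.gcd_dvd_right (2 : ℤ) k
      rw [h6] at this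
      exact_mod_cast this
  obtain ⟨l, m, hlm⟩ := hcop
  refine ⟨l, ?_⟩
  have h7 : (m * 2 ^ b) • u b = 0 := by
    have h8 : (m * 2 ^ b : ℤ) • u b = m • (2 ^ b • u b) := by
      rw [mul_smul, ← natCast_zsmul]
      push_cast
      rfl
    rw [h8, pow_u, smul_zero]
  calc u b = (l * k + m * 2 ^ b) • u b := by rw [hlm, one_smul]
    _ = (l * k) • u b := by rw [add_smul, h7, add_zero]
    _ = l • y := by rw [mul_smul, ← hyk]

theorem isArtinian_D : IsArtinian ℤ D := by
  let ρ : Submodule ℤ D → ℕ∞ := fun N => ⨆ a : {a : ℕ // u a ∈ N}, ((a : ℕ) : ℕ∞)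
  have hρ : StrictMono ρ := by
    intro N M hNM
    obtain ⟨y, hyM, hyN⟩ := Set.exists_of_ssubset (show (N : Set D) ⊂ M from hNM)
    have hy0 : y ≠ 0 := fun h => hyN (h ▸ N.zero_mem)
    obtain ⟨b, hb0, ⟨k, hk⟩, l, hl⟩ := exists_gen y hy0
    have h1 : u b ∈ M := by
      rw [hl]
      exact M.smul_mem l hyM
    have h2 : u b ∉ N := by
      intro h
      apply hyN
      rw [hk]
      exact N.smul_mem k h
    have h3 : ρ N ≤ ((b - 1 : ℕ) : ℕ∞) := by
      refine iSup_le fun a => ?_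
      have : (a : ℕ) < b := by
        by_contra hcon
        apply h2
        rw [u_eq (not_lt.1 hcon)]
        exact N.nsmul_mem a.2 _
      exact_mod_cast (by omega : (a : ℕ) ≤ b - 1)
    have h4 : ((b : ℕ) : ℕ∞) ≤ ρ M :=
      le_iSup (fun a : {a : ℕ // u a ∈ M} => ((a : ℕ) : ℕ∞)) ⟨b, h1⟩
    refine lt_of_le_of_lt h3 (lt_of_lt_of_le ?_ h4)
    exact_mod_cast (by omega : b - 1 < b)
  exact hρ.wellFoundedLT

/-- coprimality -/
lemma exists_inv (a : ℕ) : ∃ l : ℤ, ∀ d : D, 2 ^ a • d = 0 → (3 : ℕ) • (l • d) = d := by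
  have hcop : IsCoprime (3 : ℤ) ((2 : ℤ) ^ a) := by
    apply IsCoprime.pow_right
    exact ⟨1, -1, by norm_num⟩
  obtain ⟨l, m, hlm⟩ := hcop
  refine ⟨l, fun d hd => ?_⟩
  have h1 : (m * 2 ^ a) • d = 0 := by
    have h8 : (m * 2 ^ a : ℤ) • d = m • (2 ^ a • d) := by
      rw [mul_smul, ← natCast_zsmul]
      push_cast
      rfl
    rw [h8, hd, smul_zero]
  have h2 : (3 : ℕ) • (l • d) = (l * 3) • d := by
    rw [← natCast_zsmul, smul_smul, mul_comm]
    rfl
  rw [h2]
  calc (l * 3) • d = (l * 3 + m * 2 ^ a) • d := by rw [add_smul, h1, add_zero]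
    _ = d := by rw [hlm, one_smul]

lemma three_injective {d : D} (h : (3 : ℕ) • d = 0) : d = 0 := by
  obtain ⟨a, ha⟩ := exists_pow d
  obtain ⟨l, hl⟩ := exists_inv a
  have h1 := hl d ha
  rw [smul_comm, h, smul_zero] at h1
  exact h1.symm

lemma three_bijective : Function.Bijective (nsmulAddMonoidHom (α := D) 3) := by
  constructor
  · rw [injective_iff_map_eq_zero]
    intro d hd
    exact three_injective hd
  · intro d
    obtain ⟨a, ha⟩ := exists_pow d
    obtain ⟨l, hl⟩ := exists_inv a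
    exact ⟨l • d, hl d ha⟩

/-- a third -/
noncomputable def third : D →+ D := (AddEquiv.ofBijective _ three_bijective).symm.toAddMonoidHom

lemma three_third (d : D) : (3 : ℕ) • third d = d :=
  (AddEquiv.ofBijective _ three_bijective).apply_symm_apply d

lemma third_eq (a : ℕ) : ∃ l : ℤ, ∀ d : D, 2 ^ a • d = 0 → third d = l • d := by
  obtain ⟨l, hl⟩ := exists_inv a
  refine ⟨l, fun d hd => ?_⟩
  rw [← sub_eq_zero]
  apply three_injective
  rw [smul_sub, three_third, hl d hd, sub_self]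

lemma third_ne (m : ℤ) : ∃ d : D, third d ≠ m • d := by
  by_contra hcon
  push Not at hcon
  have h1 : ∀ d : D, (3 * m - 1) • d = 0 := by
    intro d
    have h2 := three_third d
    rw [hcon d, ← natCast_zsmul, smul_smul] at h2
    rw [sub_smul, one_smul, sub_eq_zero]
    exact h2
  have h3 : ∀ a : ℕ, (2 : ℤ) ^ a ∣ 3 * m - 1 := by
    intro a
    have h4 := congrArg ι (h1 (u a))
    rw [map_zsmul, map_zero, ι_u, ← AddCircle.coe_zsmul, zsmul_eq_mul,
      AddCircle.coe_eq_zero_iff] at h4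
    obtain ⟨k, hk⟩ := h4
    simp only [zsmul_eq_mul, mul_one] at hk
    refine ⟨k, ?_⟩
    have h5 : ((3 * m - 1 : ℤ) : ℝ) = ((2 ^ a * k : ℤ) : ℝ) := by
      have h6 : ((3 * m - 1 : ℤ) : ℝ) = 2 ^ a * (((3 * m - 1 : ℤ) : ℝ) * (1 / 2 ^ a)) := by
        field_simp
      rw [h6, ← hk]
      push_cast
      ring
    exact_mod_cast h5
  have h7 := h3 (Int.natAbs (3 * m - 1) + 1)
  have h8 : 3 * m - 1 ≠ 0 := by omega
  have h9 := Int.natAbs_dvd_natAbs.2 h7
  have h10 := Nat.le_of_dvd (Int.natAbs_pos.2 h8) h9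
  rw [Int.natAbs_pow] at h10
  have h11 : Int.natAbs (3 * m - 1) + 1 < 2 ^ (Int.natAbs (3 * m - 1) + 1) :=
    Nat.lt_two_pow_self
  have h12 : (Int.natAbs 2) = 2 := rfl
  rw [h12] at h10
  omega

/-- the characters of the sequence group -/
noncomputable def ev (θ : D →+ UnitAddCircle) (k : ℕ) : Dual (ℕ → D) where
  toAddMonoidHom := θ.comp (Pi.evalAddMonoidHom (fun _ => D) k)
  continuous_toFun := by
    have h : Continuous θ := continuous_of_discreteTopology
    exact h.comp (continuous_apply k)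

lemma ev_apply (θ : D →+ UnitAddCircle) (k : ℕ) (x : ℕ → D) : ev θ k x = θ (x k) := rfl

/-- the group -/
abbrev G : Type := (ℕ → ℝ) × Dual (ℕ → D)

/-- representatives -/
noncomputable def c (d : D) : ℝ := Classical.choose (QuotientAddGroup.mk_surjective (ι d))

lemma coe_c (d : D) : ((c d : ℝ) : UnitAddCircle) = ι d :=
  Classical.choose_spec (QuotientAddGroup.mk_surjective (ι d))

/-- the first family of characters -/
noncomputable def μ (k : ℕ) : Dual G where
  toFun g := ((g.1 k : ℝ) : UnitAddCircle)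
  map_zero' := rfl
  map_add' _ _ := rfl
  continuous_toFun := (AddCircle.continuous_mk' 1).comp ((continuous_apply k).comp continuous_fst)

/-- the second family of characters -/
noncomputable def ν (k : ℕ) (d : D) : Dual G where
  toFun g := ((g.1 k * c d : ℝ) : UnitAddCircle) - g.2 (Pi.single k d)
  map_zero' := by simp
  map_add' g g' := by
    have h1 : (g + g').2 (Pi.single k d) = g.2 (Pi.single k d) + g'.2 (Pi.single k d) := rfl
    have h2 : (g + g').1 k = g.1 k + g'.1 k := rfl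
    rw [h1, h2, add_mul, AddCircle.coe_add]
    abel
  continuous_toFun := by
    refine Continuous.sub (f := fun g : G => ((g.1 k * c d : ℝ) : UnitAddCircle))
      (g := fun g : G => g.2 (Pi.single k d)) ?_ ?_
    · exact (AddCircle.continuous_mk' 1).comp
        (((continuous_apply k).comp continuous_fst).mul continuous_const)
    · exact (ContinuousEvalConst.continuous_eval_const (F := Dual (ℕ → D))
        (Pi.single k d : ℕ → D)).comp continuous_snd

lemma μ_apply (k : ℕ) (g : G) : μ k g = ((g.1 k : ℝ) : UnitAddCircle) := rfl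

lemma ν_apply (k : ℕ) (d : D) (g : G) :
    ν k d g = ((g.1 k * c d : ℝ) : UnitAddCircle) - g.2 (Pi.single k d) := rfl

/-- the closed subgroup -/
noncomputable def H : AddSubgroup G where
  carrier := {g | ∀ k, μ k g = 0 ∧ ∀ d, ν k d g = 0}
  zero_mem' := fun k => ⟨map_zero _, fun d => map_zero _⟩
  add_mem' := by
    intro g g' hg hg' k
    refine ⟨?_, fun d => ?_⟩
    · rw [map_add, (hg k).1, (hg' k).1, add_zero]
    · rw [map_add, (hg k).2, (hg' k).2, add_zero]
  neg_mem' := by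
    intro g hg k
    refine ⟨?_, fun d => ?_⟩
    · rw [map_neg, (hg k).1, neg_zero]
    · rw [map_neg, (hg k).2, neg_zero]

lemma mem_H {g : G} : g ∈ H ↔ ∀ k, μ k g = 0 ∧ ∀ d, ν k d g = 0 := Iff.rfl

lemma isClosed_H : IsClosed (H : Set G) := by
  have : (H : Set G) = ⋂ k, (μ k ⁻¹' {0} ∩ ⋂ d, ν k d ⁻¹' {0}) := by
    ext g
    simp only [SetLike.mem_coe, mem_H, Set.mem_iInter, Set.mem_inter_iff, Set.mem_preimage,
      Set.mem_singleton_iff]
  rw [this]
  refine isClosed_iInter fun k => IsClosed.inter ?_ (isClosed_iInter fun d => ?_)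
  · exact isClosed_singleton.preimage (μ k).continuous_toFun
  · exact isClosed_singleton.preimage (ν k d).continuous_toFun

/-- characters that vanish on the subgroup factor -/
lemma exists_lift (χ : Dual G) (h : ∀ g ∈ H, χ g = 0) :
    ∃ χ' : Dual (G ⧸ H), ∀ g, χ' (QuotientAddGroup.mk g) = χ g :=
  ⟨⟨QuotientAddGroup.lift H χ.toAddMonoidHom h, continuous_quot_lift _ χ.continuous_toFun⟩,
    fun _ => rfl⟩

lemma zsmul_dual (s : ℤ) (χ : Dual (ℕ → D)) (x : ℕ → D) : (s • χ) x = s • χ x := by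
  let e : Dual (ℕ → D) →+ UnitAddCircle :=
    { toFun := fun χ => χ x
      map_zero' := rfl
      map_add' := fun _ _ => rfl }
  exact map_zsmul e s χ

lemma nsmul_dual (s : ℕ) (χ : Dual (ℕ → D)) (x : ℕ → D) : (s • χ) x = s • χ x := by
  rw [← natCast_zsmul, zsmul_dual, natCast_zsmul]

/-- the points -/
noncomputable def pt (n : ℕ) : G := (0, ev (ι.comp third) n)

/-- integral points -/
lemma int_mem (s : ℤ) (n : ℕ) : ((Pi.single n (s : ℝ), s • ev ι n) : G) ∈ H := by
  rw [mem_H]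
  intro k
  refine ⟨?_, fun d => ?_⟩
  · show (((Pi.single n (s : ℝ) : ℕ → ℝ) k : ℝ) : UnitAddCircle) = 0
    by_cases h : k = n
    · subst h
      rw [Pi.single_eq_same, AddCircle.coe_eq_zero_iff]
      exact ⟨s, by simp⟩
    · rw [Pi.single_eq_of_ne h]
      rfl
  · show (((Pi.single n (s : ℝ) : ℕ → ℝ) k * c d : ℝ) : UnitAddCircle) -
      (s • ev ι n) (Pi.single k d) = 0
    rw [zsmul_dual, ev_apply]
    by_cases h : k = n
    · subst h
      rw [Pi.single_eq_same, Pi.single_eq_same, ← coe_c, ← AddCircle.coe_zsmul, zsmul_eq_mul,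
        sub_self]
    · rw [Pi.single_eq_of_ne h, Pi.single_eq_of_ne (Ne.symm h), zero_mul, map_zero, smul_zero,
        sub_zero]
      rfl

/-- compact sets of sequences have finite projections -/
lemma exists_bound {K : Set (ℕ → D)} (hK : IsCompact K) (n : ℕ) :
    ∃ a : ℕ, ∀ x ∈ K, 2 ^ a • x n = 0 := by
  have h1 : ((fun x : ℕ → D => x n) '' K).Finite :=
    (hK.image (continuous_apply n)).finite_of_discrete
  choose e he using exists_pow
  refine ⟨h1.toFinset.sup e, fun x hx => ?_⟩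
  have h2 : e (x n) ≤ h1.toFinset.sup e :=
    Finset.le_sup (h1.mem_toFinset.2 ⟨x, hx, rfl⟩)
  rw [show h1.toFinset.sup e = (h1.toFinset.sup e - e (x n)) + e (x n) by omega, pow_add, mul_smul,
    he, smul_zero]

lemma exists_compact {V : Set (Dual (ℕ → D))} (hV : V ∈ 𝓝 (0 : Dual (ℕ → D))) :
    ∃ K : Set (ℕ → D), IsCompact K ∧ ∀ χ : Dual (ℕ → D), (∀ x ∈ K, χ x = 0) → χ ∈ V := by
  rw [(ContinuousAddMonoidHom.isInducing_toContinuousMap (ℕ → D) UnitAddCircle).nhds_eq_comap] at hV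
  have h1 := (Metric.nhds_basis_ball (x := (0 : UnitAddCircle))).nhds_continuousMapConst
    (X := ℕ → D)
  have h2 := h1.comap
    (ContinuousAddMonoidHom.toContinuousMap : Dual (ℕ → D) → C(ℕ → D, UnitAddCircle))
  obtain ⟨⟨K, i⟩, ⟨hK, hi⟩, hKi⟩ := h2.mem_iff.1 hV
  refine ⟨K, hK, fun χ hχ => hKi ?_⟩
  intro x hx
  have h3 : χ.toContinuousMap x = 0 := hχ x hx
  rw [h3]
  exact Metric.mem_ball_self hi

/-- characters of a product are trivial on almost all coordinates -/
lemma exists_trivial (χ : Dual (ℕ → D)) : ∃ k, ∀ d : D, χ (Pi.single k d) = 0 := by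
  obtain ⟨U, hU, h⟩ := exists_nhds_vanish χ
  rw [nhds_pi, Filter.mem_pi] at hU
  obtain ⟨I, hI, t, ht, htU⟩ := hU
  obtain ⟨k, hk⟩ := hI.exists_notMem
  refine ⟨k, fun d => h (AddMonoidHom.single (fun _ : ℕ => D) k).range ?_ _ ⟨d, rfl⟩⟩
  rintro _ ⟨d', rfl⟩
  apply htU
  intro i hi
  have h1 : (AddMonoidHom.single (fun _ : ℕ => D) k) d' i = 0 := by
    rw [AddMonoidHom.single_apply, Pi.single_eq_of_ne]
    rintro rfl
    exact hk hi
  rw [h1]
  exact mem_of_mem_nhds (ht i)

lemma small (W : Set (G ⧸ H)) (hW : W ∈ 𝓝 (0 : G ⧸ H)) :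
    ∃ n₀, ∀ n, n₀ ≤ n → ∀ j : ℕ, j • (QuotientAddGroup.mk (pt n) : G ⧸ H) ∈ W := by
  have h1 : (QuotientAddGroup.mk : G → G ⧸ H) ⁻¹' W ∈ 𝓝 (0 : G) :=
    (continuous_quot_mk (r := QuotientAddGroup.leftRel H)).continuousAt.preimage_mem_nhds hW
  rw [show (0 : G) = ((0 : ℕ → ℝ), (0 : Dual (ℕ → D))) from rfl, nhds_prod_eq,
    Filter.mem_prod_iff] at h1
  obtain ⟨U, hU, V, hV, hUV⟩ := h1
  -- the real part
  rw [nhds_pi, Filter.mem_pi] at hU
  obtain ⟨I, hI, t, ht, htU⟩ := hU
  obtain ⟨n₀, hn₀⟩ := hI.bddAbove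
  -- the dual part
  obtain ⟨K, hK, hKV⟩ := exists_compact hV
  refine ⟨n₀ + 1, fun n hn j => ?_⟩
  obtain ⟨a, ha⟩ := exists_bound hK n
  obtain ⟨l, hl⟩ := third_eq a
  -- the integral point
  have h2 : (QuotientAddGroup.mk (j • pt n - (Pi.single n (((j * l : ℤ)) : ℝ),
      (j * l : ℤ) • ev ι n)) : G ⧸ H) = j • (QuotientAddGroup.mk (pt n) : G ⧸ H) := by
    rw [QuotientAddGroup.mk_sub, QuotientAddGroup.mk_nsmul, sub_eq_self]
    rw [QuotientAddGroup.eq_zero_iff]
    exact int_mem _ _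
  rw [← h2]
  apply hUV
  refine ⟨htU fun i hi => ?_, hKV _ fun x hx => ?_⟩
  · have h3 : i ≠ n := by
      have := hn₀ hi
      omega
    have h4 : (j • pt n - (Pi.single n (((j * l : ℤ)) : ℝ), (j * l : ℤ) • ev ι n) : G).1 i = 0 := by
      show (j • (0 : ℕ → ℝ) - (Pi.single n (((j * l : ℤ)) : ℝ) : ℕ → ℝ)) i = 0
      rw [smul_zero, zero_sub, Pi.neg_apply, Pi.single_eq_of_ne h3, neg_zero]
    rw [h4]
    exact mem_of_mem_nhds (ht i)
  · show (j • ev (ι.comp third) n - (j * l : ℤ) • ev ι n) x = 0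
    have h5 : (j • ev (ι.comp third) n - (j * l : ℤ) • ev ι n) x =
        (j • ev (ι.comp third) n) x - ((j * l : ℤ) • ev ι n) x := rfl
    have h6 : ev (ι.comp third) n x = ι (third (x n)) := rfl
    rw [h5, nsmul_dual, zsmul_dual, h6, ev_apply, hl _ (ha x hx), map_zsmul, ← natCast_zsmul, smul_smul, sub_self]

theorem not_surjective : ¬ Function.Surjective (eta (G ⧸ H)) := by
  intro hs
  obtain ⟨x, hx⟩ := Ind.exists_weak_limit (fun n => (QuotientAddGroup.mk (pt n) : G ⧸ H)) small hs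
  obtain ⟨⟨r, χ⟩, rfl⟩ := QuotientAddGroup.mk_surjective x
  have hsum : ∀ n, ∑ m ∈ Finset.range n, (QuotientAddGroup.mk (pt m) : G ⧸ H) =
      QuotientAddGroup.mk (∑ m ∈ Finset.range n, pt m) := by
    intro n
    induction n with
    | zero => rfl
    | succ n ih => rw [Finset.sum_range_succ, Finset.sum_range_succ, ih, QuotientAddGroup.mk_add]
  -- the real part is integral
  have h1 : ∀ k, ((r k : ℝ) : UnitAddCircle) = 0 := by
    intro k
    obtain ⟨χ', hχ'⟩ := exists_lift (μ k) fun g hg => (hg k).1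
    obtain ⟨n₀, hn₀⟩ := hx χ'
    have h2 := hn₀ n₀ le_rfl
    rw [hsum, hχ', hχ', map_sum] at h2
    rw [μ_apply] at h2
    rw [h2]
    exact Finset.sum_eq_zero fun m _ => rfl
  have h3 : ∀ k d, χ (Pi.single k d) = ((r k * c d : ℝ) : UnitAddCircle) + ι (third d) := by
    intro k d
    obtain ⟨χ', hχ'⟩ := exists_lift (ν k d) fun g hg => (hg k).2 d
    obtain ⟨n₀, hn₀⟩ := hx χ'
    have h2 := hn₀ (max n₀ (k + 1)) (le_max_left _ _)
    rw [hsum, hχ', hχ', map_sum, ν_apply] at h2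
    rw [Finset.sum_eq_single k] at h2
    · have h4 : ν k d (pt k) = - ι (third d) := by
        rw [ν_apply]
        show (((0 : ℝ) * c d : ℝ) : UnitAddCircle) - ι (third ((Pi.single k d : ℕ → D) k)) = _
        rw [zero_mul, Pi.single_eq_same, AddCircle.coe_zero, zero_sub]
      rw [h4] at h2
      have h5 : ((r k * c d : ℝ) : UnitAddCircle) - χ (Pi.single k d) = - ι (third d) := h2
      rw [sub_eq_iff_eq_add] at h5
      rw [h5]
      abel
    · intro m _ hm
      rw [ν_apply]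
      show (((0 : ℝ) * c d : ℝ) : UnitAddCircle) - ι (third ((Pi.single k d : ℕ → D) m)) = _
      rw [zero_mul, Pi.single_eq_of_ne hm, map_zero, map_zero, AddCircle.coe_zero, sub_zero]
    · intro hcon
      exact absurd (Finset.mem_range.2 (lt_of_lt_of_le (Nat.lt_succ_self k) (le_max_right _ _))) hcon
  -- the character is trivial on almost all coordinates
  obtain ⟨k, hk⟩ := exists_trivial χ
  obtain ⟨m, hm⟩ := (AddCircle.coe_eq_zero_iff (1 : ℝ)).1 (h1 k)
  simp only [zsmul_eq_mul, mul_one] at hm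
  obtain ⟨d, hd⟩ := third_ne (-m)
  apply hd
  apply ι_injective
  have h6 := h3 k d
  rw [hk, ← hm] at h6
  have h7 : (((m : ℝ) * c d : ℝ) : UnitAddCircle) = m • ι d := by
    rw [← coe_c, ← AddCircle.coe_zsmul, zsmul_eq_mul]
  rw [h7] at h6
  rw [neg_smul, map_neg, map_zsmul, eq_neg_iff_add_eq_zero, add_comm]
  exact h6.symm

end Ex

theorem exists_direct_sum_example : ∃ (D : Type) (_ : AddCommGroup D)
    (_ : TopologicalSpace D) (_ : DiscreteTopology D), IsArtinian ℤ D ∧
      (∀ x : D, ∃ n : ℕ, 0 < n ∧ n • x = 0) ∧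
      ¬ StronglyReflexive ((ℕ → ℝ) × Dual (ℕ → D)) := by
  refine ⟨Ex.D, inferInstance, inferInstance, inferInstance, Ex.isArtinian_D, fun x => ?_, ?_⟩
  · obtain ⟨a, ha⟩ := Ex.exists_pow x
    exact ⟨2 ^ a, by positivity, ha⟩
  · exact Bad.not_stronglyReflexive ⟨Ex.H, Ex.isClosed_H, Ex.not_surjective⟩

end Pool.Agent.Work.MP_c629c8_al
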