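import Pool.Agent.Work.MP_c629c8_al.Dua.Fin
import Pool.Agent.Work.MP_c629c8_al.Vec.LemF
import Pool.Agent.Work.MP_c629c8_al.Vec.Surj
import Pool.Agent.Work.MP_c629c8_al.Vec.OpenSub

/-!
# Closed subgroups of the dual group are annihilators
-/

universe u v w

namespace Pool.Agent.Work.MP_c629c8_al

open Topology

namespace AnnAux

lemma coe_inv_ne_zero {k : ℤ} (h0 : k ≠ 0) (h1 : k ≠ 1) (h2 : k ≠ -1) :
    (((k : ℝ)⁻¹ : ℝ) : UnitAddCircle) ≠ 0 := by
  intro h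
  rw [AddCircle.coe_eq_zero_iff] at h
  obtain ⟨n, hn⟩ := h
  have hk : (k : ℝ) ≠ 0 := Int.cast_ne_zero.2 h0
  have h3 : (n : ℝ) * k = 1 := by
    rw [zsmul_eq_mul, mul_one] at hn
    rw [hn, inv_mul_cancel₀ hk]
  have h4 : n * k = 1 := by exact_mod_cast h3
  have h5 := Int.isUnit_iff.1 (IsUnit.of_mul_eq_one_right n h4)
  rcases h5 with h5 | h5
  · exact h1 h5
  · exact h2 h5

/-- a proper subgroup of the integers is killed by a nonzero point of the circle -/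
lemma exists_torsion (S : AddSubgroup ℤ) (h : (1 : ℤ) ∉ S) :
    ∃ t : UnitAddCircle, t ≠ 0 ∧ ∀ n ∈ S, n • t = 0 := by
  obtain ⟨k, hk⟩ := Int.subgroup_cyclic S
  have hkS : k ∈ S := by
    rw [hk]
    exact AddSubgroup.subset_closure rfl
  have key : ∀ t : UnitAddCircle, k • t = 0 → ∀ n ∈ S, n • t = 0 := by
    intro t ht n hn
    rw [hk, AddSubgroup.mem_closure_singleton] at hn
    obtain ⟨m, rfl⟩ := hn
    rw [smul_assoc, ht, smul_zero]
  by_cases h0 : k = 0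
  · refine ⟨(((2 : ℤ) : ℝ)⁻¹ : ℝ), coe_inv_ne_zero (by norm_num) (by norm_num) (by norm_num),
      key _ ?_⟩
    rw [h0, zero_smul]
  · have h1 : k ≠ 1 := by
      rintro rfl
      exact h hkS
    have h2 : k ≠ -1 := by
      rintro rfl
      exact h (by simpa using S.neg_mem hkS)
    refine ⟨((k : ℝ)⁻¹ : ℝ), coe_inv_ne_zero h0 h1 h2, key _ ?_⟩
    rw [← AddCircle.coe_zsmul, zsmul_eq_mul, mul_inv_cancel₀ (Int.cast_ne_zero.2 h0)]
    exact AddCircle.coe_period 1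

end AnnAux

section

variable {X : Type u} [AddCommGroup X] [TopologicalSpace X] [NonarchimedeanAddGroup X]

theorem mem_of_annihilates (hX : LinComplete X) (ht : TorsMod X) (L : AddSubgroup (Dual X))
    (hL : IsClosed (L : Set (Dual X))) (χ : Dual X)
    (h : ∀ x, (∀ ψ ∈ L, ψ x = 0) → χ x = 0) : χ ∈ L := by
  by_contra hχ
  have hW : {ξ : Dual X | χ + ξ ∉ L} ∈ 𝓝 (0 : Dual X) := by
    have h1 : IsOpen {ξ : Dual X | χ + ξ ∉ L} :=
      hL.isOpen_compl.preimage (continuous_const.add continuous_id)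
    exact h1.mem_nhds (by
      show χ + 0 ∉ L
      rwa [add_zero])
  obtain ⟨K, hK, ε, hε, hKW⟩ := SurjAux.exists_of_mem_nhds hW
  obtain ⟨C, hC, hKC⟩ := exists_compact_subgroup hX ht hK
  have hno : ∀ ψ ∈ L, ¬ ∀ c ∈ C, ψ c = χ c := by
    intro ψ hψ hc
    have h1 := hKW (ψ - χ) (fun x hx => by
      show ‖ψ x - χ x‖ < ε
      rw [hc x (hKC hx), sub_self, norm_zero]
      exact hε)
    apply h1
    rwa [add_sub_cancel]
  have : CompactSpace C := isCompact_iff_compactSpace.1 hC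
  let res : Dual X →+ Dual C := (dualMap (subHom C)).toAddMonoidHom
  let β : L × ℤ →+ Dual C :=
    (res.comp (L.subtype.comp (AddMonoidHom.fst L ℤ))) +
      ((zmultiplesHom (Dual C) (res χ)).comp (AddMonoidHom.snd L ℤ))
  let S : AddSubgroup ℤ := (L.map res).comap (zmultiplesHom (Dual C) (res χ))
  have hS : ∀ n, n ∈ S ↔ ∃ ψ ∈ L, res ψ = n • res χ := fun n => Iff.rfl
  obtain ⟨t, ht0, ht⟩ := AnnAux.exists_torsion S (by
    rw [hS]
    rintro ⟨ψ, hψ, h1⟩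
    rw [one_smul] at h1
    exact hno ψ hψ fun c hc => DFunLike.congr_fun h1 (⟨c, hc⟩ : C))
  let Ψ : L × ℤ →+ UnitAddCircle := (zmultiplesHom UnitAddCircle t).comp (AddMonoidHom.snd L ℤ)
  obtain ⟨c, hc⟩ := exists_point β Ψ (by
    rintro ⟨ψ, n⟩ h1
    change res ψ + n • res χ = 0 at h1
    show n • t = 0
    apply ht
    rw [hS]
    refine ⟨-ψ, L.neg_mem ψ.2, ?_⟩
    rw [map_neg, neg_eq_iff_add_eq_zero]
    exact h1)
  have h1 : ∀ ψ ∈ L, ψ (c : X) = 0 := by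
    intro ψ hψ
    have h2 : (0 : ℤ) • t = (res ψ + (0 : ℤ) • res χ) c := hc (⟨ψ, hψ⟩, 0)
    rw [zero_zsmul, zero_zsmul, add_zero] at h2
    exact h2.symm
  have h2 : (1 : ℤ) • t = (res 0 + (1 : ℤ) • res χ) c := hc (0, 1)
  rw [one_zsmul, one_zsmul, map_zero, zero_add] at h2
  apply ht0
  rw [h2]
  exact h c h1

end

end Pool.Agent.Work.MP_c629c8_al
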