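import Mathlib
import Pool.Agent.Work.MP_c629c8_al.Linear

/-!
# Compact subgroups of complete linear groups with torsion discrete quotients
-/

universe u v w

namespace Pool.Agent.Work.MP_c629c8_al

open Topology

/-- all discrete quotients are torsion groups -/
def TorsMod (X : Type u) [AddCommGroup X] [TopologicalSpace X] : Prop :=
  ∀ (N : OpenAddSubgroup X) (x : X), ∃ n : ℕ, 0 < n ∧ n • x ∈ N

section

variable {X : Type u} [AddCommGroup X] [TopologicalSpace X] [NonarchimedeanAddGroup X]

/-- A closed subgroup of a complete linear group that is finite modulo all open subgroups is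
compact. -/
theorem isCompact_of_finite (hX : LinComplete X) {B : AddSubgroup X}
    (hB : IsClosed (B : Set X))
    (hfin : ∀ N : OpenAddSubgroup X, ∃ F : Finset X, ∀ b ∈ B, ∃ f ∈ F, b - f ∈ N) :
    IsCompact (B : Set X) := by
  classical
  rw [isCompact_iff_ultrafilter_le_nhds]
  intro f hf
  have hfB : (B : Set X) ∈ f := Filter.le_principal_iff.1 hf
  have h1 : ∀ N : OpenAddSubgroup X, ∃ x, cst x (N : AddSubgroup X) ∈ f := by
    intro N
    obtain ⟨F, hF⟩ := hfin N
    have h2 : (⋃ x ∈ (F : Set X), cst x (N : AddSubgroup X)) ∈ f := by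
      refine Filter.mem_of_superset hfB fun b hb => ?_
      obtain ⟨x, hx, hbx⟩ := hF b hb
      exact Set.mem_iUnion₂.2 ⟨x, hx, hbx⟩
    rw [Ultrafilter.finite_biUnion_mem_iff F.finite_toSet] at h2
    obtain ⟨x, -, hx⟩ := h2
    exact ⟨x, hx⟩
  choose x hx using h1
  obtain ⟨y, hy⟩ := hX x (by
    intro N M hMN
    obtain ⟨z, hzM, hzN⟩ := Ultrafilter.nonempty_of_mem (Filter.inter_mem (hx M) (hx N))
    have h3 : z - x M ∈ N := hMN hzM
    have h4 := (N : AddSubgroup X).sub_mem hzN h3
    rwa [sub_sub_sub_cancel_left] at h4)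
  have hfy : (f : Filter X) ≤ 𝓝 y := by
    intro U hU
    have h2 : (fun z => z + y) ⁻¹' U ∈ 𝓝 (0 : X) := by
      apply (continuous_id.add continuous_const).continuousAt.preimage_mem_nhds
      simpa using hU
    obtain ⟨N, hN⟩ := NonarchimedeanAddGroup.is_nonarchimedean _ h2
    refine Filter.mem_of_superset (hx N) fun z hz => ?_
    have h3 : z - y ∈ (N : AddSubgroup X) := by
      have := (N : AddSubgroup X).sub_mem hz (hy N)
      rwa [sub_sub_sub_cancel_right] at this
    have h4 := hN h3
    simpa using h4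
  refine ⟨y, ?_, hfy⟩
  have h5 := mem_closure_iff_ultrafilter.2 ⟨f, hfB, hfy⟩
  rwa [hB.closure_eq] at h5

/-- In a complete linear group with torsion discrete quotients all compact sets are contained in
compact subgroups. -/
theorem exists_compact_subgroup (hX : LinComplete X) (ht : TorsMod X) {K : Set X}
    (hK : IsCompact K) : ∃ C : AddSubgroup X, IsCompact (C : Set X) ∧ K ⊆ C := by
  classical
  refine ⟨(AddSubgroup.closure K).topologicalClosure, ?_,
    (AddSubgroup.subset_closure).trans (AddSubgroup.le_topologicalClosure _)⟩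
  refine isCompact_of_finite hX (AddSubgroup.isClosed_topologicalClosure _) fun N => ?_
  let q : X →+ X ⧸ (N : AddSubgroup X) := QuotientAddGroup.mk' (N : AddSubgroup X)
  have hdis : DiscreteTopology (X ⧸ (N : AddSubgroup X)) :=
    QuotientAddGroup.discreteTopology N.isOpen'
  have hq : Continuous q := continuous_quot_mk
  have hfin : (q '' K).Finite := (hK.image hq).finite_of_discrete
  let A : AddSubgroup (X ⧸ (N : AddSubgroup X)) := (AddSubgroup.closure K).map q
  have hA : A = AddSubgroup.closure (q '' K) := AddMonoidHom.map_closure q K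
  have hfg : AddGroup.FG A := by
    rw [AddGroup.fg_iff_addSubgroup_fg, hA]
    exact ⟨hfin.toFinset, by rw [hfin.coe_toFinset]⟩
  have htor : ∀ a : A, ∃ n : ℕ, 0 < n ∧ n • a = 0 := by
    rintro ⟨a, ha⟩
    obtain ⟨x, rfl⟩ := QuotientAddGroup.mk_surjective a
    obtain ⟨n, hn, hx⟩ := ht N x
    refine ⟨n, hn, Subtype.ext ?_⟩
    show n • (QuotientAddGroup.mk x : X ⧸ (N : AddSubgroup X)) = 0
    rw [← QuotientAddGroup.mk_nsmul, QuotientAddGroup.eq_zero_iff]
    exact hx
  have hAfin : Finite A := by
    apply AddCommGroup.finite_of_fg_isAddTorsion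
    intro a
    obtain ⟨n, hn, h⟩ := htor a
    exact isOfFinAddOrder_iff_nsmul_eq_zero.2 ⟨n, hn, h⟩
  have hrep : ∀ a : A, ∃ x ∈ AddSubgroup.closure K, q x = a := fun a => a.2
  choose r hr hqr using hrep
  have hF : (Set.range r).Finite := Set.finite_range r
  refine ⟨hF.toFinset, fun b hb => ?_⟩
  have h1 : b ∈ closure ((AddSubgroup.closure K : AddSubgroup X) : Set X) := hb
  have h2 : cst b (N : AddSubgroup X) ∈ 𝓝 b := by
    have : cst b (N : AddSubgroup X) = (fun y => y - b) ⁻¹' (N : Set X) := rfl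
    rw [this]
    apply (continuous_id.sub continuous_const).continuousAt.preimage_mem_nhds
    simpa using N.mem_nhds_zero
  obtain ⟨g, hgN, hg⟩ := mem_closure_iff_nhds.1 h1 _ h2
  let a : A := ⟨q g, ⟨g, hg, rfl⟩⟩
  refine ⟨r a, hF.mem_toFinset.2 ⟨a, rfl⟩, ?_⟩
  have h3 : q (r a) = q g := hqr a
  have h4 : g - r a ∈ (N : AddSubgroup X) := by
    rw [← QuotientAddGroup.eq_zero_iff]
    show q (g - r a) = 0
    rw [map_sub, h3, sub_self]
  have h5 : g - b ∈ (N : AddSubgroup X) := hgN
  have h6 := (N : AddSubgroup X).sub_mem h4 h5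
  rwa [sub_sub_sub_cancel_left] at h6

end

end Pool.Agent.Work.MP_c629c8_al
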