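import Mathlib
import Pool.Agent.Work.MP_c629c8_al.Dua.Fin
import Pool.Agent.Work.MP_c629c8_al.Vec.Surj
import Pool.Agent.Work.MP_c629c8_al.Vec.OpenSub
import Pool.Agent.Work.MP_c629c8_al.Vec.CompQ
import Pool.Agent.Work.MP_c629c8_al.Inherit

/-!
# Restriction of characters to closed subgroups
-/

universe u v w

namespace Pool.Agent.Work.MP_c629c8_al

open Topology

open scoped Pointwise

namespace RestrAux

variable {X : Type u} [AddCommGroup X] [TopologicalSpace X] [NonarchimedeanAddGroup X]

/-- the kernel of a character of a subgroup is open -/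
lemma isOpen_ker (H : AddSubgroup X) (χ : Dual H) : IsOpen {h : H | χ h = 0} := by
  obtain ⟨U, hU, h⟩ := exists_nhds_vanish χ
  obtain ⟨N, hN⟩ := exists_traceOpen_sub H hU
  have h1 : ∀ x ∈ traceOpen H N, χ x = 0 := h (traceOpen H N : AddSubgroup H) hN
  exact AddSubgroup.isOpen_mono (H₁ := (traceOpen H N : AddSubgroup H))
    (H₂ := χ.toAddMonoidHom.ker) h1 (traceOpen H N).isOpen'

/-- a character of a closed subgroup that vanishes on a compact subgroup extends to a character
that vanishes on the compact subgroup -/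
lemma exists_extension_vanish (H : AddSubgroup X) (hH : IsClosed (H : Set X)) (C : AddSubgroup X)
    (hC : IsCompact (C : Set X)) (χ : Dual H) (hχ : ∀ h : H, (h : X) ∈ C → χ h = 0) :
    ∃ ξ : Dual X, (∀ h : H, ξ h = χ h) ∧ ∀ c ∈ C, ξ c = 0 := by
  have hB : IsClosed ((Subtype.val : H → X) '' {h : H | χ h = 0}ᶜ) :=
    hH.isClosedEmbedding_subtypeVal.isClosedMap _ (isOpen_ker H χ).isClosed_compl
  have hBC : IsClosed ((Subtype.val : H → X) '' {h : H | χ h = 0}ᶜ + (C : Set X)) :=
    hB.add_right_of_isCompact hC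
  have h0 : (0 : X) ∉ (Subtype.val : H → X) '' {h : H | χ h = 0}ᶜ + (C : Set X) := by
    rintro ⟨_, ⟨h, hh, rfl⟩, c, hc, hhc⟩
    apply hh
    apply hχ
    have h1 : (h : X) = -c := eq_neg_of_add_eq_zero_left hhc
    rw [h1]
    exact C.neg_mem hc
  obtain ⟨N, hN⟩ := NonarchimedeanAddGroup.is_nonarchimedean _ (hBC.isOpen_compl.mem_nhds h0)
  let f : H × C × (N : AddSubgroup X) →+ X :=
    H.subtype.coprod (C.subtype.coprod (N : AddSubgroup X).subtype)
  obtain ⟨k, hk⟩ := OpenSubAux.exists_extension_of_ker f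
    (χ.toAddMonoidHom.comp (AddMonoidHom.fst H (C × (N : AddSubgroup X)))) (by
      rintro ⟨h, c, n⟩ hf
      have hf' : (h : X) + ((c : X) + (n : X)) = 0 := hf
      show χ h = 0
      by_contra hcon
      have h1 : (h : X) + c ∈ N := by
        have : (h : X) + c = -n := by
          rw [← add_assoc] at hf'
          exact eq_neg_of_add_eq_zero_left hf'
        rw [this]
        exact (N : AddSubgroup X).neg_mem n.2
      exact hN h1 ⟨h, ⟨h, hcon, rfl⟩, c, c.2, rfl⟩)
  have hk' : ∀ (h : H) (c : C) (n : (N : AddSubgroup X)), k ((h : X) + ((c : X) + (n : X))) = χ h :=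
    fun h c n => hk (h, c, n)
  have hkN : ∀ x ∈ N, k x = 0 := by
    intro x hx
    have h1 := hk' 0 0 ⟨x, hx⟩
    rw [map_zero, ZeroMemClass.coe_zero, ZeroMemClass.coe_zero, zero_add, zero_add] at h1
    exact h1
  refine ⟨⟨k, continuous_of_open_ker k N hkN⟩, fun h => ?_, fun c hc => ?_⟩
  · have h1 := hk' h 0 0
    rw [ZeroMemClass.coe_zero, ZeroMemClass.coe_zero, add_zero, add_zero] at h1
    exact h1
  · have h1 := hk' 0 ⟨c, hc⟩ 0
    rw [map_zero, ZeroMemClass.coe_zero, ZeroMemClass.coe_zero, zero_add, add_zero] at h1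
    exact h1

end RestrAux

section

variable {X : Type u} [AddCommGroup X] [TopologicalSpace X] [NonarchimedeanAddGroup X]

/-- the dual group is linear -/
theorem nonarchimedean_dual (hX : LinComplete X) (ht : TorsMod X) :
    NonarchimedeanAddGroup (Dual X) where
  is_nonarchimedean := by
    intro U hU
    obtain ⟨K, hK, ε, hε, hKU⟩ := SurjAux.exists_of_mem_nhds hU
    obtain ⟨C, hC, hKC⟩ := exists_compact_subgroup hX ht hK
    let A : AddSubgroup (Dual X) :=
      { carrier := {χ | ∀ c ∈ C, χ c = 0}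
        zero_mem' := fun c _ => rfl
        add_mem' := fun {a b} ha hb c hc => by
          show a c + b c = 0
          rw [ha c hc, hb c hc, add_zero]
        neg_mem' := fun {a} ha c hc => by
          show -a c = 0
          rw [ha c hc, neg_zero] }
    refine ⟨⟨A, CompQ.isOpen_annihilator hC⟩, fun χ hχ => hKU χ fun x hx => ?_⟩
    have h1 : χ x = 0 := hχ x (hKC hx)
    rw [h1, norm_zero]
    exact hε

/-- restriction of characters to a closed subgroup is surjective and open -/
theorem restrict_closed (hX : LinComplete X) (ht : TorsMod X) (H : AddSubgroup X)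
    (hH : IsClosed (H : Set X)) : Function.Surjective (dualMap (subHom H)) ∧
      IsOpenMap (dualMap (subHom H)) := by
  refine ⟨fun χ => ?_, ?_⟩
  · obtain ⟨ξ, hξ, -⟩ := RestrAux.exists_extension_vanish H hH ⊥
      (by rw [AddSubgroup.coe_bot]; exact isCompact_singleton) χ (fun h hh => by
        rw [AddSubgroup.mem_bot] at hh
        have : h = 0 := Subtype.ext hh
        rw [this, map_zero])
    exact ⟨ξ, ContinuousAddMonoidHom.ext hξ⟩
  · rw [IsTopologicalAddGroup.isOpenMap_iff_nhds_zero]
    intro W hW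
    rw [Filter.mem_map] at hW
    obtain ⟨K, hK, ε, hε, hKW⟩ := SurjAux.exists_of_mem_nhds hW
    obtain ⟨C, hC, hKC⟩ := exists_compact_subgroup hX ht hK
    have hD : IsCompact ((C.comap H.subtype : AddSubgroup H) : Set H) :=
      hH.isClosedEmbedding_subtypeVal.isCompact_preimage hC
    have h1 := (CompQ.isOpen_annihilator hD).mem_nhds (show (0 : Dual H) ∈ _ from fun c _ => rfl)
    filter_upwards [h1] with χ hχ
    obtain ⟨ξ, hξ, hξC⟩ := RestrAux.exists_extension_vanish H hH C hC χ fun h hh => hχ h hh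
    have h2 : dualMap (subHom H) ξ = χ := ContinuousAddMonoidHom.ext hξ
    rw [← h2]
    refine hKW ξ fun x hx => ?_
    rw [hξC x (hKC hx), norm_zero]
    exact hε

end

end Pool.Agent.Work.MP_c629c8_al
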