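import Pool.Agent.Work.MP_c629c8_al.Dua.Lift
import Pool.Agent.Work.MP_c629c8_al.Dua.Restr
import Pool.Agent.Work.MP_c629c8_al.Dua.Ann
import Pool.Agent.Work.MP_c629c8_al.Refl
import Pool.Agent.Work.MP_c629c8_al.Vec.Tr
import Pool.Agent.Work.MP_c629c8_al.Vec.OpenSub

/-!
# Duals of complete linear groups with the condition (A) and torsion discrete quotients

The dual of a reflexive group is reflexive. The dual of a complete Hausdorff linear group with the
condition (A) all of whose discrete quotients are torsion groups is strongly reflexive.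
-/

universe u v w

namespace Pool.Agent.Work.MP_c629c8_al

open Topology

theorem IsReflexive.dual {G : Type u} [AddCommGroup G] [TopologicalSpace G]
    (h : IsReflexive G) : IsReflexive (Dual G) := by
  let f : G →ₜ+ Dual (Dual G) := ⟨etaHom G, h.continuous⟩
  let e : G ≃+ Dual (Dual G) := AddEquiv.ofBijective (etaHom G) h.bijective
  have he : Continuous e.symm := by
    rw [continuous_def]
    intro W hW
    have : e.symm ⁻¹' W = eta G '' W := by
      ext b
      constructor
      · intro hb
        exact ⟨e.symm b, hb, e.apply_symm_apply b⟩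
      · rintro ⟨a, ha, rfl⟩
        show e.symm (e a) ∈ W
        rwa [e.symm_apply_apply]
    rw [this]
    exact h.isOpenMap W hW
  let g : Dual (Dual G) →ₜ+ G := ⟨e.symm.toAddMonoidHom, he⟩
  have hfg : ∀ b, f (g b) = b := fun b => e.apply_symm_apply b
  have hgf : ∀ a, g (f a) = a := fun a => e.symm_apply_apply a
  have h1 : eta (Dual G) = (dualHomeo f g hfg hgf).symm := by
    funext χ
    rw [← (dualHomeo f g hfg hgf).symm_apply_apply (eta (Dual G) χ)]
    congr 1
  unfold IsReflexive
  rw [h1]
  exact (dualHomeo f g hfg hgf).symm.isHomeomorph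

section dual

variable {X : Type u} [AddCommGroup X] [TopologicalSpace X]

/-- the annihilator of a group of characters -/
def annih (L : AddSubgroup (Dual X)) : AddSubgroup X where
  carrier := {x | ∀ ψ ∈ L, ψ x = 0}
  zero_mem' := fun ψ _ => map_zero ψ
  add_mem' := fun {a b} ha hb ψ hψ => by rw [map_add, ha ψ hψ, hb ψ hψ, add_zero]
  neg_mem' := fun {a} ha ψ hψ => by rw [map_neg, ha ψ hψ, neg_zero]

lemma mem_annih {L : AddSubgroup (Dual X)} {x : X} : x ∈ annih L ↔ ∀ ψ ∈ L, ψ x = 0 := Iff.rfl

lemma isClosed_annih (L : AddSubgroup (Dual X)) : IsClosed (annih L : Set X) := by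
  have : (annih L : Set X) = ⋂ ψ ∈ L, {x | ψ x = 0} := by
    ext x
    rw [SetLike.mem_coe, mem_annih]
    simp
  rw [this]
  exact isClosed_biInter fun ψ _ => isClosed_eq ψ.continuous_toFun continuous_const

variable [NonarchimedeanAddGroup X]

lemma mem_iff_annih (hX : LinComplete X) (ht : TorsMod X) {L : AddSubgroup (Dual X)}
    (hL : IsClosed (L : Set (Dual X))) (χ : Dual X) : χ ∈ L ↔ ∀ x ∈ annih L, χ x = 0 :=
  ⟨fun h _ hx => hx χ h, fun h => mem_of_annihilates hX ht L hL χ fun x hx => h x hx⟩

/-- the characters of `X / H` as characters of `X` -/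
noncomputable def inflate (H : AddSubgroup X) : Dual (X ⧸ H) →ₜ+ Dual X :=
  dualMap (⟨QuotientAddGroup.mk' H, continuous_quot_mk⟩ : X →ₜ+ X ⧸ H)

omit [NonarchimedeanAddGroup X] in
lemma inflate_apply (H : AddSubgroup X) (ξ : Dual (X ⧸ H)) (x : X) :
    inflate H ξ x = ξ (QuotientAddGroup.mk x) := rfl

lemma inflate_isEmbedding [T2Space X] (hX : LinComplete X) (hA : CondA X) (ht : TorsMod X)
    (H : AddSubgroup X) (hH : IsClosed (H : Set X)) : IsEmbedding (inflate H) := by
  have hinj : Function.Injective (inflate H) := by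
    intro ξ ξ' h
    refine ContinuousAddMonoidHom.ext fun q => ?_
    obtain ⟨x, rfl⟩ := QuotientAddGroup.mk_surjective q
    exact DFunLike.congr_fun h x
  refine ⟨?_, hinj⟩
  rw [IsTopologicalAddGroup.isInducing_iff_nhds_zero]
  refine le_antisymm ?_ ?_
  · rw [← Filter.tendsto_iff_comap]
    have h2 : Filter.Tendsto (inflate H) (𝓝 0) (𝓝 (inflate H 0)) :=
      (inflate H).continuous_toFun.continuousAt
    rwa [map_zero] at h2
  · intro W hW
    obtain ⟨K, hK, δ, hδ, h⟩ := SurjAux.exists_of_mem_nhds hW
    obtain ⟨C, hC, hCK⟩ := exists_compact_lift hX hA ht H hH hK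
    refine Filter.mem_comap.2 ⟨_, SurjAux.mem_nhds hC hδ, fun ξ hξ => h ξ fun q hq => ?_⟩
    obtain ⟨c, hc, rfl⟩ := hCK q hq
    exact hξ c hc

theorem stronglyReflexive_dual {X : Type u} [AddCommGroup X] [TopologicalSpace X]
    [NonarchimedeanAddGroup X] [T2Space X] (hX : LinComplete X) (hA : CondA X)
    (ht : TorsMod X) : StronglyReflexive (Dual X) := by
  intro L hL
  obtain ⟨U, hU⟩ := hA.exists_goodSeq
  have hH := isClosed_annih L
  have hr := stronglyReflexive_of_good hX hU (annih L) hH
  constructor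
  · refine isReflexive_subgroup_of (inflate (annih L)) (inflate_isEmbedding hX hA ht _ hH) L
      (fun χ => ?_) hr.2.dual
    constructor
    · intro hχ
      have hχ' : ∀ x ∈ annih L, χ x = 0 := fun x hx => hx χ hχ
      exact ⟨⟨QuotientAddGroup.lift (annih L) χ.toAddMonoidHom hχ',
        continuous_quot_lift _ χ.continuous_toFun⟩, ContinuousAddMonoidHom.ext fun x => rfl⟩
    · rintro ⟨ξ, rfl⟩
      rw [mem_iff_annih hX ht hL]
      intro x hx
      rw [inflate_apply, (QuotientAddGroup.eq_zero_iff x).2 hx, map_zero]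
  · obtain ⟨hs, ho⟩ := restrict_closed hX ht (annih L) hH
    refine isReflexive_quotient_of (dualMap (subHom (annih L))) hs ho L (fun χ => ?_) hr.1.dual
    rw [mem_iff_annih hX ht hL]
    constructor
    · intro h
      refine ContinuousAddMonoidHom.ext fun x => ?_
      exact h x x.2
    · intro h x hx
      exact DFunLike.congr_fun h (⟨x, hx⟩ : annih L)

end dual

end Pool.Agent.Work.MP_c629c8_al
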