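import Mathlib
import Pool.Agent.Work.MP_c629c8_al.PiGood
import Pool.Agent.Work.MP_c629c8_al.Dua.Fin

/-!
# Products of discrete torsion groups: the dual group is complete
-/

universe u v

namespace Pool.Agent.Work.MP_c629c8_al

open Topology

section ann

variable {X : Type u} [AddCommGroup X] [TopologicalSpace X]

/-- the annihilator of a compact subgroup, as an open subgroup of the dual group -/
def annOpen (C : AddSubgroup X) (hC : IsCompact (C : Set X)) : OpenAddSubgroup (Dual X) where
  carrier := {χ | ∀ x ∈ C, χ x = 0}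
  zero_mem' := fun _ _ => rfl
  add_mem' := fun {χ ψ} hχ hψ x hx => by
    show χ x + ψ x = 0
    rw [hχ x hx, hψ x hx, add_zero]
  neg_mem' := fun {χ} hχ x hx => by
    show -(χ x) = 0
    rw [hχ x hx, neg_zero]
  isOpen' := by
    let L : AddSubgroup (Dual X) :=
      { carrier := {χ | ∀ x ∈ C, χ x = 0}
        zero_mem' := fun _ _ => rfl
        add_mem' := fun {χ ψ} hχ hψ x hx => by
          show χ x + ψ x = 0
          rw [hχ x hx, hψ x hx, add_zero]
        neg_mem' := fun {χ} hχ x hx => by
          show -(χ x) = 0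
          rw [hχ x hx, neg_zero] }
    show IsOpen (L : Set (Dual X))
    have hopen : IsOpen {χ : Dual X | Set.MapsTo χ C (Metric.ball (0 : UnitAddCircle) (1 / 4))} :=
      (ContinuousMap.isOpen_setOfPred_mapsTo hC Metric.isOpen_ball).preimage
        (ContinuousAddMonoidHom.isInducing_toContinuousMap _ _).continuous
    refine AddSubgroup.isOpen_of_mem_nhds (g := 0) L (Filter.mem_of_superset
      (hopen.mem_nhds ?_) ?_)
    · intro x _
      show (0 : UnitAddCircle) ∈ Metric.ball (0 : UnitAddCircle) (1 / 4)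
      exact Metric.mem_ball_self (by norm_num)
    · intro χ hχ x hx
      refine eq_zero_of_small fun j => ?_
      have := hχ (C.nsmul_mem hx j)
      rw [mem_ball_zero_iff, map_nsmul] at this
      exact this

lemma mem_annOpen {C : AddSubgroup X} {hC : IsCompact (C : Set X)} {χ : Dual X} :
    χ ∈ annOpen C hC ↔ ∀ x ∈ C, χ x = 0 := Iff.rfl

end ann

section sum

variable {I : Type u} {D : I → Type v} [∀ i, AddCommGroup (D i)]

/-- the product of the subgroups generated by the sets `S i` -/
def clBox (S : ∀ i, Set (D i)) : AddSubgroup (∀ i, D i) where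
  carrier := {x | ∀ i, x i ∈ AddSubgroup.closure (S i)}
  zero_mem' := fun i => (AddSubgroup.closure (S i)).zero_mem
  add_mem' := fun {_ _} hx hy i => (AddSubgroup.closure (S i)).add_mem (hx i) (hy i)
  neg_mem' := fun {_} hx i => (AddSubgroup.closure (S i)).neg_mem (hx i)

lemma mem_clBox {S : ∀ i, Set (D i)} {x : ∀ i, D i} :
    x ∈ clBox S ↔ ∀ i, x i ∈ AddSubgroup.closure (S i) := Iff.rfl

lemma mem_clBox_of_mem {S : ∀ i, Set (D i)} {x : ∀ i, D i} (h : ∀ i, x i ∈ S i) : x ∈ clBox S :=
  fun i => AddSubgroup.subset_closure (h i)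

lemma clBox_mono {S T : ∀ i, Set (D i)} (h : ∀ i, S i ⊆ T i) : clBox S ≤ clBox T :=
  fun _ hx i => AddSubgroup.closure_mono (h i) (hx i)

lemma finite_closure_of_torsion {A : Type v} [AddCommGroup A]
    (ht : ∀ x : A, ∃ n : ℕ, 0 < n ∧ n • x = 0) {S : Set A} (hS : S.Finite) :
    (AddSubgroup.closure S : Set A).Finite := by
  have := hS.to_subtype
  have hfg : AddGroup.FG (AddSubgroup.closure S) := inferInstance
  have htor : IsAddTorsion (AddSubgroup.closure S) := by
    intro x
    obtain ⟨n, hn, hx⟩ := ht x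
    rw [isOfFinAddOrder_iff_nsmul_eq_zero]
    exact ⟨n, hn, Subtype.ext hx⟩
  have hfin := AddCommGroup.finite_of_fg_isAddTorsion _ htor
  exact Set.toFinite _

variable [∀ i, TopologicalSpace (D i)] [∀ i, DiscreteTopology (D i)]

lemma isCompact_clBox (ht : ∀ i (x : D i), ∃ n : ℕ, 0 < n ∧ n • x = 0) {S : ∀ i, Set (D i)}
    (hS : ∀ i, (S i).Finite) : IsCompact (clBox S : Set (∀ i, D i)) := by
  have h : (clBox S : Set (∀ i, D i)) =
      Set.pi Set.univ fun i => (AddSubgroup.closure (S i) : Set (D i)) := by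
    ext x
    exact ⟨fun hx i _ => hx i, fun hx i => hx i (Set.mem_univ i)⟩
  rw [h]
  exact isCompact_univ_pi fun i => (finite_closure_of_torsion (ht i) (hS i)).isCompact

theorem torsMod_pi (ht : ∀ i (x : D i), ∃ n : ℕ, 0 < n ∧ n • x = 0) : TorsMod (∀ i, D i) := by
  intro N x
  obtain ⟨F, hF⟩ := exists_coordOpen_le N
  choose n hn hx using fun i => ht i (x i)
  refine ⟨∏ i ∈ F, n i, Finset.prod_pos fun i _ => hn i, hF fun i hi => ?_⟩
  show (∏ i ∈ F, n i) • x i = 0
  obtain ⟨m, hm⟩ := Finset.dvd_prod_of_mem n (show i ∈ F from hi)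
  rw [hm, mul_comm, mul_smul, hx, smul_zero]

/-- the values of a coherent family -/
lemma coherent_val {X : Type u} [AddCommGroup X] [TopologicalSpace X]
    {c : OpenAddSubgroup (Dual X) → Dual X} (hc : ∀ N M, M ≤ N → c M - c N ∈ N)
    {C C' : AddSubgroup X} (hC : IsCompact (C : Set X)) (hC' : IsCompact (C' : Set X)) {x : X}
    (hx : x ∈ C) (hx' : x ∈ C') : c (annOpen C hC) x = c (annOpen C' hC') x := by
  have h1 := hc (annOpen C hC) (annOpen C hC ⊓ annOpen C' hC') inf_le_left x hx
  have h2 := hc (annOpen C' hC') (annOpen C hC ⊓ annOpen C' hC') inf_le_right x hx'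
  have h1' : c (annOpen C hC ⊓ annOpen C' hC') x - c (annOpen C hC) x = 0 := h1
  have h2' : c (annOpen C hC ⊓ annOpen C' hC') x - c (annOpen C' hC') x = 0 := h2
  rw [sub_eq_zero] at h1' h2'
  rw [← h1', h2']

/-- every open subgroup of the dual group contains the annihilator of a compact subgroup -/
lemma exists_annOpen_le (ht : ∀ i (x : D i), ∃ n : ℕ, 0 < n ∧ n • x = 0)
    (N : OpenAddSubgroup (Dual (∀ i, D i))) :
    ∃ (C : AddSubgroup (∀ i, D i)) (hC : IsCompact (C : Set (∀ i, D i))), annOpen C hC ≤ N := by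
  let P : Type _ := {K : Set (∀ i, D i) // IsCompact K}
  let S : P → ∀ i, Set (D i) := fun K i => (fun x : ∀ i, D i => x i) '' K.1
  have hS : ∀ K i, (S K i).Finite := fun K i =>
    (K.2.image (continuous_apply i)).finite_of_discrete
  let f : P → Filter (Dual (∀ i, D i)) := fun K =>
    Filter.principal (annOpen (clBox (S K)) (isCompact_clBox ht (hS K)) : Set (Dual (∀ i, D i)))
  have hdir : Directed (· ≥ ·) f := by
    intro K L
    refine ⟨⟨K.1 ∪ L.1, K.2.union L.2⟩, ?_, ?_⟩
    · refine Filter.principal_mono.2 fun χ hχ x hx => hχ x (clBox_mono (fun i => ?_) hx)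
      exact Set.image_mono Set.subset_union_left
    · refine Filter.principal_mono.2 fun χ hχ x hx => hχ x (clBox_mono (fun i => ?_) hx)
      exact Set.image_mono Set.subset_union_right
  have : Nonempty P := ⟨⟨∅, isCompact_empty⟩⟩
  have hle : Filter.Tendsto (id : Dual (∀ i, D i) → Dual (∀ i, D i)) (⨅ K, f K) (𝓝 0) := by
    rw [(ContinuousAddMonoidHom.isInducing_toContinuousMap _ _).tendsto_nhds_iff,
      ContinuousMap.tendsto_nhds_compactOpen]
    intro K hK U _ hm
    refine Filter.mem_iInf_of_mem ⟨K, hK⟩ (Filter.mem_principal.2 ?_)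
    intro χ hχ x hx
    have h0 : χ x = 0 := hχ x (mem_clBox_of_mem fun i => ⟨x, hx, rfl⟩)
    have h1 : (0 : UnitAddCircle) ∈ U := hm hx
    show χ x ∈ U
    rw [h0]
    exact h1
  have hN := hle N.mem_nhds_zero
  rw [Filter.mem_map, Filter.mem_iInf_of_directed hdir] at hN
  obtain ⟨K, hK⟩ := hN
  exact ⟨_, _, Filter.mem_principal.1 hK⟩

theorem linComplete_dual_pi (ht : ∀ i (x : D i), ∃ n : ℕ, 0 < n ∧ n • x = 0) :
    LinComplete (Dual (∀ i, D i)) := by
  classical
  intro c hc
  have hcomp : ∀ x : ∀ i, D i, IsCompact (clBox (fun i => {x i}) : Set (∀ i, D i)) := fun x =>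
    isCompact_clBox ht fun i => Set.finite_singleton _
  have hself : ∀ x : ∀ i, D i, x ∈ clBox (fun i => {x i}) := fun x =>
    mem_clBox_of_mem fun i => rfl
  -- the limit, as a homomorphism
  let χ : (∀ i, D i) →+ UnitAddCircle := AddMonoidHom.mk'
    (fun x => c (annOpen (clBox fun i => {x i}) (hcomp x)) x) (by
      intro x y
      have hC : IsCompact (clBox (fun i => {x i, y i}) : Set (∀ i, D i)) :=
        isCompact_clBox ht fun i => Set.toFinite _
      have hx : x ∈ clBox (fun i => {x i, y i}) := mem_clBox_of_mem fun i => Or.inl rfl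
      have hy : y ∈ clBox (fun i => {x i, y i}) := mem_clBox_of_mem fun i => Or.inr rfl
      rw [coherent_val hc (hcomp x) hC (hself x) hx, coherent_val hc (hcomp y) hC (hself y) hy,
        coherent_val hc (hcomp (x + y)) hC (hself (x + y)) (add_mem hx hy), map_add])
  have hval : ∀ (C : AddSubgroup (∀ i, D i)) (hC : IsCompact (C : Set (∀ i, D i))), ∀ x ∈ C,
      χ x = c (annOpen C hC) x := fun C hC x hx => coherent_val hc (hcomp x) hC (hself x) hx
  -- points of finite support
  have hcut : ∀ F : Finset I, (∃ x ∈ coordOpen D F, χ x ≠ 0) →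
      ∃ (y : ∀ i, D i) (E : Finset I), y ∈ coordOpen D F ∧ (∀ i ∉ E, y i = 0) ∧ χ y ≠ 0 := by
    rintro F ⟨x, hxF, hx⟩
    obtain ⟨V, hV⟩ := exists_open_ker (c (annOpen (clBox fun i => {x i}) (hcomp x)))
    obtain ⟨E, hE⟩ := exists_coordOpen_le V
    refine ⟨fun i => if i ∈ E then x i else 0, E, fun i hi => ?_, fun i hi => if_neg hi, ?_⟩
    · show (if i ∈ E then x i else 0) = 0
      rw [hxF i hi, ite_self]
    · have hmem : (fun i => if i ∈ E then x i else 0) ∈ clBox fun i => {x i} := by
        intro i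
        show (if i ∈ E then x i else 0) ∈ AddSubgroup.closure {x i}
        by_cases hi : i ∈ E
        · rw [if_pos hi]
          exact AddSubgroup.subset_closure rfl
        · rw [if_neg hi]
          exact AddSubgroup.zero_mem _
      rw [hval _ (hcomp x) _ hmem]
      rw [hval _ (hcomp x) _ (hself x)] at hx
      have h1 : c (annOpen (clBox fun i => {x i}) (hcomp x))
          (x - fun i => if i ∈ E then x i else 0) = 0 := by
        apply hV
        apply hE
        intro i hi
        show x i - (if i ∈ E then x i else 0) = 0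
        rw [if_pos (Finset.mem_coe.1 hi), sub_self]
      rw [map_sub, sub_eq_zero] at h1
      rw [← h1]
      exact hx
  -- `χ` vanishes on an open subgroup
  have hker : ∃ F : Finset I, ∀ x ∈ coordOpen D F, χ x = 0 := by
    by_contra hno
    push Not at hno
    choose y E hyF hyE hy using fun F => hcut F (hno F)
    let F : ℕ → Finset I := fun k => Nat.rec ∅ (fun _ A => A ∪ E A) k
    have hF : ∀ k, F (k + 1) = F k ∪ E (F k) := fun k => rfl
    have hmono : Monotone F := monotone_nat_of_le_succ fun k => by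
      rw [hF]
      exact Finset.subset_union_left
    have h0 : ∀ i k, i ∉ F (k + 1) → y (F k) i = 0 := by
      intro i k hi
      apply hyE
      intro h
      apply hi
      rw [hF]
      exact Finset.mem_union_right _ h
    have h1 : ∀ i k₀, i ∈ F k₀ → ∀ k, k₀ ≤ k → y (F k) i = 0 := fun i k₀ hi k hk =>
      hyF (F k) i (hmono hk hi)
    have hbound : ∀ i, ∃ k₀, ∀ k, k₀ ≤ k → y (F k) i = 0 := by
      intro i
      rcases Classical.em (∃ k₀, i ∈ F k₀) with ⟨k₀, hk₀⟩ | hi
      · exact ⟨k₀, h1 i k₀ hk₀⟩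
      · exact ⟨0, fun k _ => h0 i k fun h => hi ⟨k + 1, h⟩⟩
    choose b hb using hbound
    have hfin : ∀ i, (Set.range fun k => y (F k) i).Finite := by
      intro i
      refine Set.Finite.subset (((Finset.range (b i)).image fun k => y (F k) i) ∪ {0} :
        Finset (D i)).finite_toSet ?_
      rintro _ ⟨k, rfl⟩
      rw [Finset.mem_coe, Finset.mem_union, Finset.mem_image, Finset.mem_singleton]
      by_cases hk : k < b i
      · exact Or.inl ⟨k, Finset.mem_range.2 hk, rfl⟩
      · exact Or.inr (hb i k (not_lt.1 hk))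
    have hC : IsCompact (clBox (fun i => Set.range fun k => y (F k) i) : Set (∀ i, D i)) :=
      isCompact_clBox ht hfin
    obtain ⟨V, hV⟩ := exists_open_ker (c (annOpen _ hC))
    obtain ⟨G, hG⟩ := exists_coordOpen_le V
    have hmem : y (F (G.sup b)) ∈ clBox fun i => Set.range fun k => y (F k) i :=
      mem_clBox_of_mem fun i => ⟨G.sup b, rfl⟩
    apply hy (F (G.sup b))
    rw [hval _ hC _ hmem]
    apply hV
    apply hG
    intro i hi
    exact hb i _ (Finset.le_sup (show i ∈ G from hi))
  obtain ⟨F, hF⟩ := hker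
  let ψ : Dual (∀ i, D i) := ⟨χ, continuous_of_open_ker χ (coordOpen D F) hF⟩
  refine ⟨ψ, fun N => ?_⟩
  obtain ⟨C, hC, hN⟩ := exists_annOpen_le ht N
  have h1 : c (annOpen C hC) - c N ∈ N := hc N (annOpen C hC) hN
  have h2 : ψ - c (annOpen C hC) ∈ N := by
    apply hN
    intro x hx
    show χ x - c (annOpen C hC) x = 0
    rw [hval C hC x hx, sub_self]
  have := add_mem h2 h1
  rwa [sub_add_sub_cancel] at this

end sum

end Pool.Agent.Work.MP_c629c8_al
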