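import Mathlib

/-!
# Divisible quotients of infinite Artinian torsion groups
-/

universe u v w

namespace Pool.Agent.Work.MP_c629c8_al

theorem finite_of_isArtinian_zmod {A : Type v} [AddCommGroup A] {n : ℕ} [NeZero n]
    [Module (ZMod n) A] (h1 : IsArtinian (ZMod n) A) : Finite A := by
  have h2 : IsNoetherian (ZMod n) A := IsSemiprimaryRing.isNoetherian_iff_isArtinian.2 h1
  have h3 : Module.Finite (ZMod n) A := inferInstance
  exact Module.finite_of_finite (ZMod n) (M := A)

/-- An Artinian abelian group of bounded exponent is finite. -/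
theorem finite_of_isArtinian_of_exponent {A : Type v} [AddCommGroup A] [IsArtinian ℤ A]
    {n : ℕ} (hn : 0 < n) (h : ∀ a : A, n • a = 0) : Finite A := by
  have : NeZero n := ⟨hn.ne'⟩
  let _ : Module (ZMod n) A := AddCommGroup.zmodModule h
  exact finite_of_isArtinian_zmod (n := n) (isArtinian_of_tower ℤ ‹IsArtinian ℤ A›)

/-- An infinite Artinian torsion abelian group has a nonzero divisible quotient. -/
theorem exists_divisible_quotient {A : Type v} [AddCommGroup A] [IsArtinian ℤ A]
    (ht : ∀ a : A, ∃ n : ℕ, 0 < n ∧ n • a = 0) [Infinite A] :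
    ∃ A' : AddSubgroup A, A' ≠ ⊤ ∧ ∀ n : ℕ, 0 < n → ∀ a : A, ∃ b : A, a - n • b ∈ A' := by
  classical
  have _ := ht
  let D : ℕ → Submodule ℤ A := fun k => LinearMap.range (LinearMap.lsmul ℤ A (k.factorial : ℤ))
  have hmem : ∀ k x, x ∈ D k ↔ ∃ a : A, k.factorial • a = x := by
    intro k x
    simp [D, LinearMap.mem_range]
  have hanti : ∀ i j, i ≤ j → D j ≤ D i := by
    intro i j hij x hx
    obtain ⟨a, rfl⟩ := (hmem j x).1 hx
    obtain ⟨c, hc⟩ := Nat.factorial_dvd_factorial hij
    exact (hmem i _).2 ⟨c • a, by rw [hc, mul_smul]⟩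
  obtain ⟨n, hn⟩ := IsArtinian.monotone_stabilizes
    (⟨fun k => OrderDual.toDual (D k), fun i j hij => hanti i j hij⟩ :
      ℕ →o (Submodule ℤ A)ᵒᵈ)
  have hn' : ∀ m, n ≤ m → D n = D m := hn
  have hdiv : ∀ m : ℕ, 0 < m → ∀ d : D n, ∃ d' : D n, m • d' = d := by
    intro m hm d
    have h1 : (d : A) ∈ D (n + m) := hn' (n + m) (Nat.le_add_right _ _) ▸ d.2
    obtain ⟨a, ha⟩ := (hmem _ _).1 h1
    obtain ⟨c, hc⟩ : n.factorial * m ∣ (n + m).factorial :=
      (Nat.mul_dvd_mul_left _ (Nat.dvd_factorial hm le_rfl)).trans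
        (Nat.factorial_mul_factorial_dvd_factorial_add n m)
    refine ⟨⟨n.factorial • (c • a), (hmem _ _).2 ⟨_, rfl⟩⟩, Subtype.ext ?_⟩
    change m • (n.factorial • (c • a)) = (d : A)
    rw [← ha, hc, smul_smul, smul_smul]
    congr 1
    ring
  let _ : DivisibleBy (D n) ℤ := divisibleByOfSMulRightSurj (D n) ℤ (by
    intro k hk d
    obtain ⟨d', hd'⟩ := hdiv k.natAbs (Int.natAbs_pos.2 hk) d
    rcases Int.natAbs_eq k with h | h
    · refine ⟨d', ?_⟩
      change k • d' = d
      rw [h, natCast_zsmul, hd']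
    · refine ⟨-d', ?_⟩
      change k • (-d') = d
      rw [h, neg_smul, smul_neg, neg_neg, natCast_zsmul, hd'])
  obtain ⟨r, hr⟩ := (Module.Baer.of_divisible (D n)).extension_property_addMonoidHom
    (D n).toAddSubgroup.subtype Subtype.val_injective (AddMonoidHom.id (D n))
  have hr' : ∀ d : D n, r (d : A) = d := fun d => DFunLike.congr_fun hr d
  refine ⟨r.ker, ?_, ?_⟩
  · intro htop
    have h0 : ∀ a : A, n.factorial • a = 0 := by
      intro a
      have h1 : n.factorial • a ∈ D n := (hmem _ _).2 ⟨a, rfl⟩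
      have h2 : r (n.factorial • a) = 0 := by
        have : n.factorial • a ∈ r.ker := htop ▸ AddSubgroup.mem_top _
        exact this
      have h3 := hr' ⟨_, h1⟩
      have h4 : (⟨n.factorial • a, h1⟩ : D n) = 0 := h3.symm.trans h2
      exact congrArg Subtype.val h4
    have := finite_of_isArtinian_of_exponent (Nat.factorial_pos n) h0
    exact not_finite A
  · intro m hm a
    obtain ⟨d, hd⟩ := hdiv m hm (r a)
    refine ⟨(d : A), ?_⟩
    rw [AddMonoidHom.mem_ker, map_sub, map_nsmul, hr', hd, sub_self]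

end Pool.Agent.Work.MP_c629c8_al
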