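import Pool.Agent.Work.MP_c629c8_al.Dua.LiftB
import Pool.Agent.Work.MP_c629c8_al.Dua.Fin
import Pool.Agent.Work.MP_c629c8_al.Dua.Alg

/-!
# Compact complements and lifts of compact sets
-/

universe u v

namespace Pool.Agent.Work.MP_c629c8_al

open Topology

section

variable {X : Type u} [AddCommGroup X] [TopologicalSpace X] [NonarchimedeanAddGroup X]

lemma mem_of_forall_sup {H : AddSubgroup X} (hH : IsClosed (H : Set X)) {x : X}
    (h : ∀ N : OpenAddSubgroup X, x ∈ H ⊔ (N : AddSubgroup X)) : x ∈ H := by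
  have h1 : x ∈ closure (H : Set X) := by
    rw [mem_closure_iff_nhds]
    intro W hW
    have hW0 : (fun t => x - t) ⁻¹' W ∈ 𝓝 (0 : X) := by
      apply (continuous_const.sub continuous_id).continuousAt.preimage_mem_nhds
      simpa using hW
    obtain ⟨N, hN⟩ := NonarchimedeanAddGroup.is_nonarchimedean _ hW0
    obtain ⟨a, ha, n, hn, h2⟩ := AddSubgroup.mem_sup.1 (h N)
    refine ⟨a, ?_, ha⟩
    have h3 := hN hn
    have h4 : x - n = a := by rw [← h2, add_sub_cancel_right]
    rw [Set.mem_preimage, h4] at h3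
    exact h3
  rwa [hH.closure_eq] at h1

/-- a minimal closed subgroup with `B + H = X` -/
theorem exists_minimal (hX : LinComplete X) {B₀ : AddSubgroup X} (hB₀c : IsClosed (B₀ : Set X))
    (hB₀ : ∀ N : OpenAddSubgroup X, ArtCond (B₀ ⊓ (N : AddSubgroup X)) B₀) {H : AddSubgroup X}
    (hH : IsClosed (H : Set X)) (h : ∀ x, ∃ b ∈ B₀, x - b ∈ H) :
    ∃ B : AddSubgroup X, B ≤ B₀ ∧ IsClosed (B : Set X) ∧ (∀ x, ∃ b ∈ B, x - b ∈ H) ∧
      ∀ B' : AddSubgroup X, B' ≤ B → IsClosed (B' : Set X) → (∀ x, ∃ b ∈ B', x - b ∈ H) →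
        B ≤ B' := by
  classical
  let T : Set (AddSubgroup X)ᵒᵈ := {B | OrderDual.ofDual B ≤ B₀ ∧
    IsClosed ((OrderDual.ofDual B : AddSubgroup X) : Set X) ∧
      ∀ x, ∃ b ∈ (OrderDual.ofDual B : AddSubgroup X), x - b ∈ H}
  obtain ⟨m, hm1, hm2⟩ := zorn_le_nonempty₀ T (by
    intro c hc hchain y hy
    refine ⟨OrderDual.toDual (sInf (OrderDual.ofDual '' c)), ⟨?_, ?_, ?_⟩, ?_⟩
    · exact (sInf_le ⟨y, hy, rfl⟩ : sInf (OrderDual.ofDual '' c) ≤ OrderDual.ofDual y).trans
        (hc hy).1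
    · show IsClosed ((sInf (OrderDual.ofDual '' c) : AddSubgroup X) : Set X)
      rw [AddSubgroup.coe_sInf]
      refine isClosed_biInter ?_
      rintro _ ⟨B, hB, rfl⟩
      exact (hc hB).2.1
    · intro x
      have hne : Nonempty c := ⟨⟨y, hy⟩⟩
      choose b hb1 hb2 using fun i : c => (hc i.2).2.2 x
      have hcst : ∀ i : c, cst (b i) (H ⊓ OrderDual.ofDual i.1) =
          cst x H ∩ (OrderDual.ofDual i.1 : AddSubgroup X) := by
        intro i
        have h1 : b i ∈ cst x H := by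
          rw [mem_cst, ← neg_sub]
          exact H.neg_mem (hb2 i)
        rw [← cst_inter, cst_eq h1]
        congr 1
        ext z
        rw [mem_cst]
        constructor
        · intro hz
          have := (OrderDual.ofDual i.1 : AddSubgroup X).add_mem hz (hb1 i)
          rwa [sub_add_cancel] at this
        · intro hz
          exact (OrderDual.ofDual i.1 : AddSubgroup X).sub_mem hz (hb1 i)
      obtain ⟨w, hw⟩ := exists_mem_of_directed hX hB₀ (fun i : c => H ⊓ OrderDual.ofDual i.1) b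
        (fun i => isClosed_cst _ _ (hH.inter (hc i.2).2.1)) (by
          intro i j
          rcases hchain.total i.2 j.2 with hij | hij
          · refine ⟨j, ?_, subset_rfl⟩
            rw [hcst, hcst]
            exact Set.inter_subset_inter_right _ hij
          · refine ⟨i, subset_rfl, ?_⟩
            rw [hcst, hcst]
            exact Set.inter_subset_inter_right _ hij) (x₀ := 0) (i₀ := ⟨y, hy⟩) (by
          rw [hcst]
          rintro z ⟨-, hz⟩
          rw [mem_cst, sub_zero]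
          exact (hc hy).1 hz)
      refine ⟨w, ?_, ?_⟩
      · show w ∈ sInf (OrderDual.ofDual '' c)
        rw [AddSubgroup.mem_sInf]
        rintro _ ⟨B, hB, rfl⟩
        have h1 := hw ⟨B, hB⟩
        rw [hcst] at h1
        exact h1.2
      · have h1 := hw ⟨y, hy⟩
        rw [hcst] at h1
        have h2 : w - x ∈ H := h1.1
        rw [← neg_sub]
        exact H.neg_mem h2
    · intro z hz
      have h1 : sInf (OrderDual.ofDual '' c) ≤ (OrderDual.ofDual z : AddSubgroup X) :=
        sInf_le ⟨z, hz, rfl⟩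
      exact h1) (OrderDual.toDual B₀) ⟨le_rfl, hB₀c, h⟩
  refine ⟨OrderDual.ofDual m, hm2.prop.1, hm2.prop.2.1, hm2.prop.2.2, fun B' h1 h2 h3 => ?_⟩
  exact hm2.le_of_ge (y := OrderDual.toDual B') ⟨h1.trans hm2.prop.1, h2, h3⟩ h1

/-- the minimal subgroup is finite modulo all open subgroups -/
theorem finite_of_minimal (hX : LinComplete X) (ht : TorsMod X) {B₀ : AddSubgroup X}
    (hB₀ : ∀ N : OpenAddSubgroup X, IsArtinian ℤ (B₀ ⧸ (N : AddSubgroup X).addSubgroupOf B₀))
    {H : AddSubgroup X} (hH : IsClosed (H : Set X))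
    (hfin : ∀ N : OpenAddSubgroup X, ∃ F : Finset X, ∀ x, ∃ f ∈ F, ∃ h ∈ H, x - f - h ∈ N)
    {B : AddSubgroup X} (hB : B ≤ B₀) (hBc : IsClosed (B : Set X))
    (hBH : ∀ x, ∃ b ∈ B, x - b ∈ H) (hmin : ∀ B' : AddSubgroup X, B' ≤ B →
      IsClosed (B' : Set X) → (∀ x, ∃ b ∈ B', x - b ∈ H) → B ≤ B') (N : OpenAddSubgroup X) :
    ∃ F : Finset X, ∀ b ∈ B, ∃ f ∈ F, b - f ∈ N := by
  classical
  by_cases hinf : Finite (B ⧸ (N : AddSubgroup X).addSubgroupOf B)
  · have := Fintype.ofFinite (B ⧸ (N : AddSubgroup X).addSubgroupOf B)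
    refine ⟨Finset.univ.image fun q : B ⧸ (N : AddSubgroup X).addSubgroupOf B =>
      ((Quotient.out q : B) : X), fun b hb => ?_⟩
    refine ⟨_, Finset.mem_image_of_mem _ (Finset.mem_univ
      (QuotientAddGroup.mk ⟨b, hb⟩ : B ⧸ (N : AddSubgroup X).addSubgroupOf B)), ?_⟩
    have h1 : (QuotientAddGroup.mk (Quotient.out (QuotientAddGroup.mk ⟨b, hb⟩ :
        B ⧸ (N : AddSubgroup X).addSubgroupOf B)) : B ⧸ (N : AddSubgroup X).addSubgroupOf B) =
        QuotientAddGroup.mk ⟨b, hb⟩ := Quotient.out_eq _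
    rw [QuotientAddGroup.eq] at h1
    have h2 : -((Quotient.out (QuotientAddGroup.mk ⟨b, hb⟩ :
        B ⧸ (N : AddSubgroup X).addSubgroupOf B) : B) : X) + b ∈ N := h1
    rwa [neg_add_eq_sub] at h2
  exfalso
  have hI : Infinite (B ⧸ (N : AddSubgroup X).addSubgroupOf B) := not_finite_iff_infinite.1 hinf
  have hart : IsArtinian ℤ (B ⧸ (N : AddSubgroup X).addSubgroupOf B) :=
    isArtinian_mono hB le_rfl (hB₀ N)
  obtain ⟨A', hA1, hA2⟩ := exists_divisible_quotient
    (A := B ⧸ (N : AddSubgroup X).addSubgroupOf B) (by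
      intro a
      obtain ⟨b, rfl⟩ := QuotientAddGroup.mk_surjective a
      obtain ⟨n, hn, h⟩ := ht N b
      refine ⟨n, hn, ?_⟩
      rw [← QuotientAddGroup.mk_nsmul, QuotientAddGroup.eq_zero_iff]
      exact h)
  -- the preimage
  let B' : AddSubgroup X := (A'.comap (QuotientAddGroup.mk' _)).map B.subtype
  have hmemB' : ∀ b : B, (b : X) ∈ B' ↔ (QuotientAddGroup.mk b :
      B ⧸ (N : AddSubgroup X).addSubgroupOf B) ∈ A' := by
    intro b
    constructor
    · rintro ⟨b', hb', h⟩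
      have h1 : b' = b := Subtype.ext h
      rw [← h1]
      exact hb'
    · intro hb
      exact ⟨b, hb, rfl⟩
  have hB'B : B' ≤ B := by
    rintro _ ⟨b, -, rfl⟩
    exact b.2
  have hB'c : IsClosed (B' : Set X) := by
    have hopen : IsOpen ((B' ⊔ (N : AddSubgroup X) : AddSubgroup X) : Set X) :=
      AddSubgroup.isOpen_mono le_sup_right N.isOpen
    have hcl := AddSubgroup.isClosed_of_isOpen _ hopen
    have heq : (B' : Set X) = (B : Set X) ∩ ((B' ⊔ (N : AddSubgroup X) : AddSubgroup X) : Set X) := by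
      ext z
      constructor
      · intro hz
        exact ⟨hB'B hz, AddSubgroup.mem_sup_left hz⟩
      · rintro ⟨hz1, hz2⟩
        obtain ⟨a, ha, n, hn, rfl⟩ := AddSubgroup.mem_sup.1 hz2
        have haB := hB'B ha
        have hnB : n ∈ B := by
          have := B.sub_mem hz1 haB
          rwa [add_sub_cancel_left] at this
        have h1 : (QuotientAddGroup.mk (⟨a, haB⟩ : B) :
          B ⧸ (N : AddSubgroup X).addSubgroupOf B) ∈ A' := (hmemB' ⟨a, haB⟩).1 ha
        refine (hmemB' ⟨a + n, hz1⟩).2 ?_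
        have h2 : (QuotientAddGroup.mk (⟨a + n, hz1⟩ : B) :
            B ⧸ (N : AddSubgroup X).addSubgroupOf B) = QuotientAddGroup.mk (⟨a, haB⟩ : B) := by
          rw [eq_comm, QuotientAddGroup.eq]
          show -a + (a + n) ∈ N
          rwa [neg_add_cancel_left]
        rw [h2]
        exact h1
    rw [heq]
    exact hBc.inter hcl
  -- the contradiction to minimality
  have hB'H : ∀ x, ∃ b ∈ B', x - b ∈ H := by
    intro x
    have hpt : ∀ M : OpenAddSubgroup X, ∃ b ∈ B', x - b ∈ H ⊔ (M : AddSubgroup X) := by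
      intro M
      obtain ⟨F, hF⟩ := hfin M
      have hfinQ : Finite (X ⧸ (H ⊔ (M : AddSubgroup X))) := by
        have : Function.Surjective (fun f : F => (QuotientAddGroup.mk (f : X) :
            X ⧸ (H ⊔ (M : AddSubgroup X)))) := by
          intro q
          obtain ⟨y, rfl⟩ := QuotientAddGroup.mk_surjective q
          obtain ⟨f, hf, h, hh, h1⟩ := hF y
          refine ⟨⟨f, hf⟩, ?_⟩
          rw [QuotientAddGroup.eq]
          have h2 := AddSubgroup.add_mem_sup hh h1
          have h3 : h + (y - f - h) = -f + y := by abel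
          rwa [h3] at h2
        exact Finite.of_surjective _ this
      have he : ∀ y : X, Nat.card (X ⧸ (H ⊔ (M : AddSubgroup X))) • y ∈
          H ⊔ (M : AddSubgroup X) := by
        intro y
        rw [← QuotientAddGroup.eq_zero_iff, QuotientAddGroup.mk_nsmul]
        exact card_nsmul_eq_zero'
      have hpos : 0 < Nat.card (X ⧸ (H ⊔ (M : AddSubgroup X))) := Nat.card_pos
      obtain ⟨b, hb, h1⟩ := hBH x
      obtain ⟨a, ha⟩ := hA2 _ hpos (QuotientAddGroup.mk ⟨b, hb⟩)
      obtain ⟨b₁, rfl⟩ := QuotientAddGroup.mk_surjective a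
      refine ⟨b - Nat.card (X ⧸ (H ⊔ (M : AddSubgroup X))) • (b₁ : X), ?_, ?_⟩
      · exact (hmemB' ((⟨b, hb⟩ : B) - Nat.card (X ⧸ (H ⊔ (M : AddSubgroup X))) • b₁)).2 ha
      · have h2 := AddSubgroup.add_mem _ (AddSubgroup.mem_sup_left h1) (he (b₁ : X))
        have h3 : x - b + Nat.card (X ⧸ (H ⊔ (M : AddSubgroup X))) • (b₁ : X) =
          x - (b - Nat.card (X ⧸ (H ⊔ (M : AddSubgroup X))) • (b₁ : X)) := by abel
        rwa [h3] at h2
    choose b hb1 hb2 using hpt
    have hcst : ∀ M : OpenAddSubgroup X, cst (b M) ((H ⊔ (M : AddSubgroup X)) ⊓ B') =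
        cst x (H ⊔ (M : AddSubgroup X)) ∩ B' := by
      intro M
      have h1 : b M ∈ cst x (H ⊔ (M : AddSubgroup X)) := by
        rw [mem_cst, ← neg_sub]
        exact AddSubgroup.neg_mem _ (hb2 M)
      rw [← cst_inter, cst_eq h1]
      congr 1
      ext z
      rw [mem_cst]
      constructor
      · intro hz
        have := B'.add_mem hz (hb1 M)
        rwa [sub_add_cancel] at this
      · intro hz
        exact B'.sub_mem hz (hb1 M)
    have hclM : ∀ M : OpenAddSubgroup X,
        IsClosed ((H ⊔ (M : AddSubgroup X) : AddSubgroup X) : Set X) := fun M =>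
      AddSubgroup.isClosed_of_isOpen _ (AddSubgroup.isOpen_mono le_sup_right M.isOpen)
    obtain ⟨w, hw⟩ := exists_mem_of_directed hX (fun M => artCond_of_isArtinian (hB₀ M))
      (fun M : OpenAddSubgroup X => (H ⊔ (M : AddSubgroup X)) ⊓ B') b
      (fun M => isClosed_cst _ _ ((hclM M).inter hB'c)) (by
        intro M M'
        refine ⟨M ⊓ M', ?_, ?_⟩
        · rw [hcst, hcst]
          exact Set.inter_subset_inter_left _ (cst_mono (sup_le_sup_left inf_le_left _))
        · rw [hcst, hcst]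
          exact Set.inter_subset_inter_left _ (cst_mono (sup_le_sup_left inf_le_right _)))
      (x₀ := 0) (i₀ := N) (by
        rw [hcst]
        rintro z ⟨-, hz⟩
        rw [mem_cst, sub_zero]
        exact hB (hB'B hz))
    have hw1 : ∀ M : OpenAddSubgroup X, w ∈ cst x (H ⊔ (M : AddSubgroup X)) ∩ B' := by
      intro M
      rw [← hcst]
      exact hw M
    refine ⟨w, (hw1 N).2, ?_⟩
    rw [← neg_sub]
    exact H.neg_mem (mem_of_forall_sup hH fun M => (hw1 M).1)
  apply hA1
  rw [eq_top_iff]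
  intro a _
  obtain ⟨b, rfl⟩ := QuotientAddGroup.mk_surjective a
  exact (hmemB' b).1 (hmin B' hB'B hB'c hB'H b.2)

theorem exists_compact_complement [T2Space X] (hX : LinComplete X) (hA : CondA X)
    (ht : TorsMod X) (H : AddSubgroup X) (hH : IsClosed (H : Set X))
    (hfin : ∀ N : OpenAddSubgroup X, ∃ F : Finset X, ∀ x, ∃ f ∈ F, ∃ h ∈ H, x - f - h ∈ N) :
    ∃ C : AddSubgroup X, IsCompact (C : Set X) ∧ ∀ x, ∃ c ∈ C, x - c ∈ H := by
  obtain ⟨B₀, hB₀c, hB₀, hB₀H⟩ := exists_core hX hA ht H hH hfin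
  obtain ⟨B, hB, hBc, hBH, hmin⟩ := exists_minimal hX hB₀c
    (fun N => artCond_of_isArtinian (hB₀ N)) hH hB₀H
  exact ⟨B, isCompact_of_finite hX hBc (finite_of_minimal hX ht hB₀ hH hfin hB hBc hBH hmin),
    hBH⟩

theorem exists_compact_lift [T2Space X] (hX : LinComplete X) (hA : CondA X) (ht : TorsMod X)
    (H : AddSubgroup X) (hH : IsClosed (H : Set X)) {K : Set (X ⧸ H)} (hK : IsCompact K) :
    ∃ C : AddSubgroup X, IsCompact (C : Set X) ∧
      ∀ q ∈ K, ∃ c ∈ C, (QuotientAddGroup.mk c : X ⧸ H) = q := by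
  classical
  obtain ⟨V, hV⟩ := hA.exists_goodSeq
  have htQ : TorsMod (X ⧸ H) := by
    intro N q
    obtain ⟨x, rfl⟩ := QuotientAddGroup.mk_surjective q
    obtain ⟨n, hn, h⟩ := ht (preOpen H N) x
    exact ⟨n, hn, h⟩
  obtain ⟨Cb, hCb, hKC⟩ := exists_compact_subgroup (linComplete_quotient H hX hV) htQ hK
  have hHc : IsClosed (H : Set X) := hH
  have hT2 : T2Space (X ⧸ H) := by
    have : IsClosed (H : Set X) := hH
    infer_instance
  -- the preimage
  let X' : AddSubgroup X := Cb.comap (QuotientAddGroup.mk' H)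
  have hX'c : IsClosed (X' : Set X) := hCb.isClosed.preimage QuotientAddGroup.continuous_mk
  have hHX' : H ≤ X' := by
    intro h hh
    show (QuotientAddGroup.mk h : X ⧸ H) ∈ Cb
    rw [(QuotientAddGroup.eq_zero_iff h).2 hh]
    exact Cb.zero_mem
  have htX' : TorsMod X' := by
    intro N x
    obtain ⟨M, hM⟩ := exists_traceOpen_le X' N
    obtain ⟨n, hn, h⟩ := ht M x
    exact ⟨n, hn, hM h⟩
  obtain ⟨C, hC, hC2⟩ := exists_compact_complement (linComplete_subgroup X' hX hX'c)
    (condA_subgroup X' hA) htX' (H.addSubgroupOf X') (hH.preimage continuous_subtype_val) (by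
      intro N
      obtain ⟨M, hM⟩ := exists_traceOpen_le X' N
      -- finitely many cosets of the image of `M`
      have h1 : ∀ q ∈ (Cb : Set (X ⧸ H)), {z | z - q ∈ imageOpen H M} ∈ 𝓝 q := by
        intro q _
        have h2 : Continuous fun z : X ⧸ H => z - q := continuous_id.sub continuous_const
        apply h2.continuousAt.preimage_mem_nhds
        show (imageOpen H M : Set (X ⧸ H)) ∈ 𝓝 (q - q)
        rw [sub_self]
        exact (imageOpen H M).mem_nhds_zero
      obtain ⟨t, ht1, ht2⟩ := hCb.elim_nhds_subcover (fun q => {z | z - q ∈ imageOpen H M}) h1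
      have hrep : ∀ q : t, ∃ x : X', (QuotientAddGroup.mk (x : X) : X ⧸ H) = q := by
        rintro ⟨q, hq⟩
        obtain ⟨x, rfl⟩ := QuotientAddGroup.mk_surjective q
        exact ⟨⟨x, ht1 _ hq⟩, rfl⟩
      choose r hr using hrep
      refine ⟨Finset.univ.image r, fun x => ?_⟩
      have h3 := ht2 (show (QuotientAddGroup.mk (x : X) : X ⧸ H) ∈ (Cb : Set (X ⧸ H)) from x.2)
      simp only [Set.mem_iUnion] at h3
      obtain ⟨q, hq, h4⟩ := h3
      obtain ⟨m, hm, h5⟩ := (mem_imageOpen H).1 h4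
      have h6 : (x : X) - r ⟨q, hq⟩ - m ∈ H := by
        rw [← QuotientAddGroup.eq_zero_iff, QuotientAddGroup.mk_sub, QuotientAddGroup.mk_sub, h5,
          hr ⟨q, hq⟩]
        exact sub_self _
      refine ⟨r ⟨q, hq⟩, Finset.mem_image_of_mem _ (Finset.mem_univ _),
        ⟨(x : X) - r ⟨q, hq⟩ - m, hHX' h6⟩, h6, hM ?_⟩
      show (x : X) - r ⟨q, hq⟩ - ((x : X) - r ⟨q, hq⟩ - m) ∈ M
      rwa [sub_sub_cancel])
  refine ⟨C.map X'.subtype, hC.image continuous_subtype_val, fun q hq => ?_⟩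
  obtain ⟨x, rfl⟩ := QuotientAddGroup.mk_surjective q
  obtain ⟨c, hc, h⟩ := hC2 ⟨x, hKC hq⟩
  refine ⟨c, ⟨c, hc, rfl⟩, ?_⟩
  rw [QuotientAddGroup.eq]
  have h1 : x - (c : X) ∈ H := h
  rwa [neg_add_eq_sub]

end

end Pool.Agent.Work.MP_c629c8_al
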