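import Pool.Agent.Work.MP_c629c8_al.CondA
import Pool.Agent.Work.MP_c629c8_al.Inherit

/-!
# Subgroups that are Artinian modulo all open subgroups
-/

universe u v

namespace Pool.Agent.Work.MP_c629c8_al

open Topology

section condA

variable {X : Type u} [AddCommGroup X] [TopologicalSpace X] [NonarchimedeanAddGroup X]

/-- The condition (A) passes to subgroups. -/
theorem condA_subgroup (H : AddSubgroup X) (h : CondA X) : CondA H := by
  obtain ⟨U, hU, hUo, hN⟩ := h
  refine ⟨fun n => (U n).addSubgroupOf H, fun m n hmn x hx => hU hmn hx,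
    fun n => (hUo n).preimage continuous_subtype_val, fun N' hN' => ?_⟩
  obtain ⟨N, hN1⟩ := exists_traceOpen_le H ⟨N', hN'⟩
  obtain ⟨n, hn⟩ := hN (N : AddSubgroup X) N.isOpen
  refine ⟨n, ?_⟩
  have h1 : IsArtinian ℤ (((U n).addSubgroupOf H) ⧸
      ((N : AddSubgroup X).addSubgroupOf H).addSubgroupOf ((U n).addSubgroupOf H)) := by
    let f0 : (U n).addSubgroupOf H →+ U n :=
      (H.subtype.comp ((U n).addSubgroupOf H).subtype).codRestrict _ fun x => x.2
    let f : (((U n).addSubgroupOf H) ⧸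
        ((N : AddSubgroup X).addSubgroupOf H).addSubgroupOf ((U n).addSubgroupOf H)) →+
        (U n ⧸ (N : AddSubgroup X).addSubgroupOf (U n)) :=
      QuotientAddGroup.map _ _ f0 (fun x hx => hx)
    refine isArtinian_of_injective f.toIntLinearMap ?_
    show Function.Injective f
    rw [injective_iff_map_eq_zero]
    intro a ha
    obtain ⟨x, rfl⟩ := QuotientAddGroup.mk_surjective a
    have h2 : (QuotientAddGroup.mk (f0 x) : U n ⧸ (N : AddSubgroup X).addSubgroupOf (U n)) = 0 :=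
      ha
    rw [QuotientAddGroup.eq_zero_iff] at h2 ⊢
    exact h2
  exact isArtinian_mono le_rfl (fun x hx => hN1 hx) h1

end condA

section closure

variable {X : Type u} [AddCommGroup X] [TopologicalSpace X] [NonarchimedeanAddGroup X]

/-- A filter with a basis of cosets, that contains a coset of a subgroup that is Artinian modulo
all open subgroups, has a point that belongs to the closures of all its members. -/
theorem exists_mem_closure_of_art (hX : LinComplete X) {B₀ : AddSubgroup X}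
    (hB₀ : ∀ N : OpenAddSubgroup X, ArtCond (B₀ ⊓ (N : AddSubgroup X)) B₀)
    (F : Filter X) (hne : F.NeBot) (hF : CosetBasis F) {x₀ : X} (hFU : cst x₀ B₀ ∈ F) :
    ∃ x, ∀ s ∈ F, x ∈ closure s := by
  classical
  let T : Set (Filter X)ᵒᵈ := {G | (OrderDual.ofDual G).NeBot ∧ CosetBasis (OrderDual.ofDual G)}
  obtain ⟨G, hFG, hG⟩ := zorn_le_nonempty₀ T (by
    intro c hc hchain y hy
    have hd : DirectedOn (· ≥ ·) (OrderDual.ofDual '' c) := by
      rintro _ ⟨a, ha, rfl⟩ _ ⟨b, hb, rfl⟩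
      rcases hchain.total ha hb with h | h
      · exact ⟨_, ⟨b, hb, rfl⟩, h, le_refl _⟩
      · exact ⟨_, ⟨a, ha, rfl⟩, le_refl _, h⟩
    have hcn : (OrderDual.ofDual '' c).Nonempty := ⟨_, y, hy, rfl⟩
    have hmem : ∀ s, s ∈ sInf (OrderDual.ofDual '' c) ↔
        ∃ G ∈ c, s ∈ (OrderDual.ofDual G : Filter X) := by
      intro s
      have hnn : Nonempty (OrderDual.ofDual '' c) := hcn.to_subtype
      rw [sInf_eq_iInf', Filter.mem_iInf_of_directed hd.directed_val]
      constructor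
      · rintro ⟨⟨_, ⟨G, hG, rfl⟩⟩, h⟩
        exact ⟨G, hG, h⟩
      · rintro ⟨G, hG, h⟩
        exact ⟨⟨_, ⟨G, hG, rfl⟩⟩, h⟩
    refine ⟨OrderDual.toDual (sInf (OrderDual.ofDual '' c)), ⟨?_, ?_⟩, ?_⟩
    · apply Filter.sInf_neBot_of_directed' hcn hd
      rintro ⟨G, hG, h⟩
      exact (hc hG).1.ne h
    · intro s hs
      obtain ⟨G, hG, h⟩ := (hmem s).1 hs
      obtain ⟨x, B, h1, h2⟩ := (hc hG).2 s h
      exact ⟨x, B, (hmem _).2 ⟨G, hG, h1⟩, h2⟩
    · intro z hz
      have hz' : (OrderDual.ofDual z : Filter X) ∈ OrderDual.ofDual '' c := ⟨z, hz, rfl⟩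
      have hz2 : sInf (OrderDual.ofDual '' c) ≤ (OrderDual.ofDual z : Filter X) := sInf_le hz'
      exact hz2) (OrderDual.toDual F) ⟨hne, hF⟩
  have hGF : OrderDual.ofDual G ≤ F := hFG
  set G' : Filter X := OrderDual.ofDual G with hG'
  have hGne : G'.NeBot := hG.prop.1
  have hGb : CosetBasis G' := hG.prop.2
  -- the maximal filter contains cosets of all open subgroups
  have key : ∀ N : OpenAddSubgroup X, ∃ x, cst x (N : AddSubgroup X) ∈ G' := by
    intro N
    obtain ⟨B₁, ⟨⟨x₁, hx₁⟩, hB₁⟩, hmin⟩ := hB₀ N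
      {B | (∃ x, cst x B ∈ G') ∧ B ≤ B₀} ⟨_, ⟨x₀, hGF hFU⟩, le_refl _⟩ (fun B hB => hB.2)
    refine ⟨x₁, ?_⟩
    have hmeet : ∀ s ∈ G', (s ∩ cst x₁ (N : AddSubgroup X)).Nonempty := by
      intro s hs
      obtain ⟨x₂, B₂, h2, h3⟩ := hGb _ (Filter.inter_mem hs hx₁)
      have h4 : x₂ - x₁ ∈ B₁ := (h3 (self_mem_cst x₂ B₂)).2
      have h5 : B₂ ≤ B₁ := by
        intro b hb
        have h6 : b + x₂ ∈ cst x₁ B₁ := (h3 (show b + x₂ ∈ cst x₂ B₂ by
          rw [mem_cst, add_sub_cancel_right]; exact hb)).2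
        have h7 := B₁.sub_mem h6 h4
        rwa [sub_sub_sub_cancel_right, add_sub_cancel_right] at h7
      have h6 := hmin B₂ ⟨⟨x₂, h2⟩, h5.trans hB₁⟩ h5
      have h7 : x₁ - x₂ ∈ B₂ ⊔ (B₀ ⊓ (N : AddSubgroup X)) := by
        apply h6
        rw [← neg_sub]
        exact B₁.neg_mem h4
      obtain ⟨b, hb, p, hp, hbp⟩ := AddSubgroup.mem_sup.1 h7
      refine ⟨x₂ + b, (h3 ?_).1, ?_⟩
      · rw [mem_cst, add_sub_cancel_left]
        exact hb
      · rw [mem_cst]
        have : x₂ + b - x₁ = -p := by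
          rw [eq_neg_iff_add_eq_zero, ← sub_eq_zero.2 hbp]
          abel
        rw [this]
        exact (N : AddSubgroup X).neg_mem hp.2
    have hne' : (G' ⊓ Filter.principal (cst x₁ (N : AddSubgroup X))).NeBot :=
      Filter.inf_principal_neBot_iff.2 hmeet
    have hb' : CosetBasis (G' ⊓ Filter.principal (cst x₁ (N : AddSubgroup X))) := by
      intro s hs
      rw [Filter.mem_inf_principal] at hs
      obtain ⟨x₂, B₂, h2, h3⟩ := hGb _ hs
      obtain ⟨z, hz1, hz2⟩ := hmeet _ h2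
      refine ⟨z, B₂ ⊓ (N : AddSubgroup X), ?_, ?_⟩
      · rw [← cst_inter, cst_eq hz1, cst_eq hz2]
        exact Filter.inter_mem (Filter.mem_inf_of_left h2)
          (Filter.mem_inf_of_right (Filter.mem_principal_self _))
      · rw [← cst_inter, cst_eq hz1, cst_eq hz2]
        rintro y ⟨hy1, hy2⟩
        exact h3 hy1 hy2
    have h := hG.le_of_ge (y := OrderDual.toDual
      (G' ⊓ Filter.principal (cst x₁ (N : AddSubgroup X)))) ⟨hne', hb'⟩
      (show (G' ⊓ Filter.principal (cst x₁ (N : AddSubgroup X))) ≤ G' from inf_le_left)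
    have h2 : G' ≤ G' ⊓ Filter.principal (cst x₁ (N : AddSubgroup X)) := h
    exact h2 (Filter.mem_inf_of_right (Filter.mem_principal_self _))
  choose x hx using key
  obtain ⟨y, hy⟩ := hX x (by
    intro N M hMN
    obtain ⟨z, hz1, hz2⟩ := Filter.nonempty_of_mem (Filter.inter_mem (hx N) (hx M))
    have h1 : z - x N ∈ N := hz1
    have h2 : z - x M ∈ N := hMN hz2
    have h3 := sub_mem h1 h2
    rwa [sub_sub_sub_cancel_left] at h3)
  refine ⟨y, fun s hs => ?_⟩
  rw [mem_closure_iff_nhds]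
  intro W hW
  have hW0 : (fun t => y + t) ⁻¹' W ∈ 𝓝 (0 : X) := by
    apply (continuous_const.add continuous_id).continuousAt.preimage_mem_nhds
    simpa using hW
  obtain ⟨N, hN⟩ := NonarchimedeanAddGroup.is_nonarchimedean _ hW0
  obtain ⟨z, hz1, hz2⟩ := Filter.nonempty_of_mem (Filter.inter_mem (hx N) (hGF hs))
  refine ⟨z, ?_, hz2⟩
  have h1 : z - x N ∈ N := hz1
  have h2 : z - y ∈ N := by
    have := sub_mem h1 (hy N)
    rwa [sub_sub_sub_cancel_right] at this
  have h3 := hN h2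
  simpa using h3

/-- The version for a directed family of closed cosets. -/
theorem exists_mem_of_directed (hX : LinComplete X) {B₀ : AddSubgroup X}
    (hB₀ : ∀ N : OpenAddSubgroup X, ArtCond (B₀ ⊓ (N : AddSubgroup X)) B₀) {ι : Type*}
    [Nonempty ι] (A : ι → AddSubgroup X) (x : ι → X)
    (hc : ∀ i, IsClosed (cst (x i) (A i))) (hd : ∀ i j, ∃ k, cst (x k) (A k) ⊆ cst (x i) (A i) ∧
      cst (x k) (A k) ⊆ cst (x j) (A j)) {x₀ : X} {i₀ : ι} (h0 : cst (x i₀) (A i₀) ⊆ cst x₀ B₀) :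
    ∃ y, ∀ i, y ∈ cst (x i) (A i) := by
  let F : Filter X := ⨅ i, Filter.principal (cst (x i) (A i))
  have hdir : Directed (· ≥ ·) (fun i => Filter.principal (cst (x i) (A i))) := by
    intro i j
    obtain ⟨k, h1, h2⟩ := hd i j
    exact ⟨k, Filter.principal_mono.2 h1, Filter.principal_mono.2 h2⟩
  have hmem : ∀ s, s ∈ F ↔ ∃ i, cst (x i) (A i) ⊆ s := by
    intro s
    rw [Filter.mem_iInf_of_directed hdir]
    simp only [Filter.mem_principal]
  obtain ⟨y, hy⟩ := exists_mem_closure_of_art hX hB₀ F (by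
    apply Filter.iInf_neBot_of_directed hdir
    intro i
    exact Filter.principal_neBot_iff.2 ⟨_, self_mem_cst _ _⟩) (by
    intro s hs
    obtain ⟨i, hi⟩ := (hmem s).1 hs
    exact ⟨x i, A i, (hmem _).2 ⟨i, le_refl _⟩, hi⟩) ((hmem _).2 ⟨i₀, h0⟩)
  refine ⟨y, fun i => ?_⟩
  have := hy _ ((hmem _).2 ⟨i, le_refl _⟩)
  rwa [(hc i).closure_eq] at this

omit [TopologicalSpace X] [NonarchimedeanAddGroup X] in
/-- the minimal condition from the Artinian quotients -/
lemma artCond_of_isArtinian {B₀ : AddSubgroup X} {N : AddSubgroup X}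
    (h : IsArtinian ℤ (B₀ ⧸ N.addSubgroupOf B₀)) : ArtCond (B₀ ⊓ N) B₀ := by
  refine artCond_of_quotient (Q := B₀ ⧸ N.addSubgroupOf B₀) _ _ (QuotientAddGroup.mk' _) ?_
  intro u hu
  refine ⟨u.2, ?_⟩
  have : (QuotientAddGroup.mk u : B₀ ⧸ N.addSubgroupOf B₀) = 0 := hu
  rw [QuotientAddGroup.eq_zero_iff] at this
  exact this

omit [TopologicalSpace X] [NonarchimedeanAddGroup X] in
/-- an extension of a finite group by an Artinian group -/
lemma isArtinian_of_finite_ext {C U N : AddSubgroup X} (hUC : U ≤ C) {F : Finset X}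
    (hF : ∀ c ∈ C, ∃ f ∈ F, c - f ∈ U) (h : IsArtinian ℤ (U ⧸ N.addSubgroupOf U)) :
    IsArtinian ℤ (C ⧸ N.addSubgroupOf C) := by
  classical
  -- the finite group
  have hfin : Finite (C ⧸ U.addSubgroupOf C) := by
    have h1 : ∀ q : C ⧸ U.addSubgroupOf C, ∃ f : F, ∀ c : C, QuotientAddGroup.mk c = q →
        (c : X) - f ∈ U := by
      intro q
      obtain ⟨c, rfl⟩ := QuotientAddGroup.mk_surjective q
      obtain ⟨f, hf, h2⟩ := hF c c.2
      refine ⟨⟨f, hf⟩, fun c' hc' => ?_⟩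
      rw [QuotientAddGroup.eq] at hc'
      have h3 : -(c' : X) + c ∈ U := hc'
      have h4 := U.sub_mem h2 h3
      have h5 : (c : X) - f - (-(c' : X) + c) = c' - f := by abel
      rwa [h5] at h4
    choose g hg using h1
    refine Finite.of_injective g ?_
    intro q q' hqq
    obtain ⟨c, rfl⟩ := QuotientAddGroup.mk_surjective q
    obtain ⟨c', rfl⟩ := QuotientAddGroup.mk_surjective q'
    rw [QuotientAddGroup.eq]
    have h1 := hg _ c rfl
    have h2 := hg _ c' rfl
    rw [hqq] at h1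
    have h3 := U.sub_mem h2 h1
    have h4 : (c' : X) - (g (QuotientAddGroup.mk c') : X) - (c - (g (QuotientAddGroup.mk c') : X))
      = -(c : X) + c' := by abel
    rw [h4] at h3
    exact h3
  let f : (U ⧸ N.addSubgroupOf U) →+ (C ⧸ N.addSubgroupOf C) :=
    QuotientAddGroup.map _ _ (AddSubgroup.inclusion hUC) (fun x hx => hx)
  let R : Submodule ℤ (C ⧸ N.addSubgroupOf C) := LinearMap.range f.toIntLinearMap
  have hQ : Finite ((C ⧸ N.addSubgroupOf C) ⧸ R) := by
    let k : (C ⧸ U.addSubgroupOf C) →+ ((C ⧸ N.addSubgroupOf C) ⧸ R) :=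
      QuotientAddGroup.lift _ (R.mkQ.toAddMonoidHom.comp (QuotientAddGroup.mk' _)) (by
        intro c hc
        show R.mkQ (QuotientAddGroup.mk c) = 0
        rw [Submodule.mkQ_apply, Submodule.Quotient.mk_eq_zero]
        exact ⟨QuotientAddGroup.mk ⟨c, hc⟩, rfl⟩)
    refine Finite.of_surjective k ?_
    intro q
    obtain ⟨q, rfl⟩ := Submodule.mkQ_surjective _ q
    obtain ⟨c, rfl⟩ := QuotientAddGroup.mk_surjective q
    exact ⟨QuotientAddGroup.mk c, rfl⟩
  have hQ' : IsArtinian ℤ ((C ⧸ N.addSubgroupOf C) ⧸ R) := isArtinian_of_finite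
  exact isArtinian_of_range_eq_ker f.toIntLinearMap R.mkQ R.ker_mkQ.symm

end closure

end Pool.Agent.Work.MP_c629c8_al
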