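import Pool.Agent.Work.MP_c629c8_al.Dua.LiftA

/-!
# A linearly compact complement
-/

universe u v

namespace Pool.Agent.Work.MP_c629c8_al

open Topology

section

variable {X : Type u} [AddCommGroup X]

/-- a finitely generated subgroup is finite modulo `V` if the quotient is a torsion group -/
lemma finite_mod_of_torsion (V : AddSubgroup X) (ht : ∀ x : X, ∃ n : ℕ, 0 < n ∧ n • x ∈ V)
    (F : Finset X) : ∃ F' : Finset X, ∀ c ∈ AddSubgroup.closure (F : Set X) ⊔ V,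
      ∃ f ∈ F', c - f ∈ V := by
  classical
  let S : AddSubgroup (X ⧸ V) :=
    (AddSubgroup.closure (F : Set X)).map (QuotientAddGroup.mk' V)
  have hS : S = AddSubgroup.closure ((QuotientAddGroup.mk' V) '' (F : Set X)) :=
    AddMonoidHom.map_closure _ _
  have hfg : AddGroup.FG S := by
    rw [AddGroup.fg_iff_addSubgroup_fg, hS]
    exact ⟨F.image (QuotientAddGroup.mk' V), by rw [Finset.coe_image]⟩
  have hfin : Finite S := by
    refine @AddCommGroup.finite_of_fg_isAddTorsion S _ hfg ?_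
    rintro ⟨q, hq⟩
    rw [isOfFinAddOrder_iff_nsmul_eq_zero]
    obtain ⟨x, rfl⟩ := QuotientAddGroup.mk_surjective q
    obtain ⟨n, hn, hx⟩ := ht x
    refine ⟨n, hn, Subtype.ext ?_⟩
    show n • (QuotientAddGroup.mk x : X ⧸ V) = 0
    rw [← QuotientAddGroup.mk_nsmul, QuotientAddGroup.eq_zero_iff]
    exact hx
  have hfin2 : (S : Set (X ⧸ V)).Finite := hfin
  refine ⟨hfin2.toFinset.image Quotient.out, fun c hc => ?_⟩
  obtain ⟨a, ha, v, hv, rfl⟩ := AddSubgroup.mem_sup.1 hc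
  refine ⟨Quotient.out (QuotientAddGroup.mk a : X ⧸ V), ?_, ?_⟩
  · rw [Finset.mem_image]
    exact ⟨_, hfin2.mem_toFinset.2 ⟨a, ha, rfl⟩, rfl⟩
  · have h1 : (QuotientAddGroup.mk (Quotient.out (QuotientAddGroup.mk a : X ⧸ V)) : X ⧸ V) =
      QuotientAddGroup.mk a := Quotient.out_eq _
    rw [QuotientAddGroup.eq] at h1
    have h2 := V.add_mem h1 hv
    have h3 : -Quotient.out (QuotientAddGroup.mk a : X ⧸ V) + a + v =
      a + v - Quotient.out (QuotientAddGroup.mk a : X ⧸ V) := by abel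
    rwa [h3] at h2

end

section

variable {X : Type u} [AddCommGroup X] [TopologicalSpace X] [NonarchimedeanAddGroup X]

omit [NonarchimedeanAddGroup X] in
/-- The first step: a decreasing sequence of open subgroups. -/
theorem exists_core_seq {U : ℕ → AddSubgroup X} (hU : Antitone U)
    (hUo : ∀ n, IsOpen (U n : Set X))
    (ht : ∀ (N : OpenAddSubgroup X) (x : X), ∃ n : ℕ, 0 < n ∧ n • x ∈ N) (H : AddSubgroup X)
    (hfin : ∀ N : OpenAddSubgroup X, ∃ F : Finset X, ∀ x, ∃ f ∈ F, ∃ h ∈ H, x - f - h ∈ N) :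
    ∃ C : ℕ → AddSubgroup X, Antitone C ∧ (∀ n, U n ≤ C n) ∧ (∀ n x, ∃ c ∈ C n, x - c ∈ H) ∧
      ∀ n, ∃ F : Finset X, ∀ c ∈ C n, ∃ f ∈ F, c - f ∈ U n := by
  classical
  -- the step
  have hstep : ∀ (n : ℕ) (C : AddSubgroup X), U n ≤ C → (∀ x, ∃ c ∈ C, x - c ∈ H) →
      ∃ C' : AddSubgroup X, C' ≤ C ∧ U n ≤ C' ∧ (∀ x, ∃ c ∈ C', x - c ∈ H) ∧
        ∃ F : Finset X, ∀ c ∈ C', ∃ f ∈ F, c - f ∈ U n := by
    intro n C hC hCH
    obtain ⟨F, hF⟩ := hfin ⟨U n, hUo n⟩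
    choose g hg1 hg2 using hCH
    refine ⟨AddSubgroup.closure ((F.image g : Finset X) : Set X) ⊔ U n, ?_, le_sup_right, ?_,
      finite_mod_of_torsion (U n) (ht ⟨U n, hUo n⟩) _⟩
    · refine sup_le ((AddSubgroup.closure_le _).2 ?_) hC
      intro y hy
      rw [Finset.coe_image] at hy
      obtain ⟨f, -, rfl⟩ := hy
      exact hg1 f
    · intro x
      obtain ⟨f, hf, h, hh, hx⟩ := hF x
      refine ⟨g f + (x - f - h), AddSubgroup.add_mem_sup (AddSubgroup.subset_closure ?_) hx, ?_⟩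
      · rw [Finset.coe_image]
        exact ⟨f, hf, rfl⟩
      · have h1 := H.add_mem (hg2 f) hh
        have h2 : f - g f + h = x - (g f + (x - f - h)) := by abel
        rwa [h2] at h1
  choose! nx hnx1 hnx2 hnx3 hnx4 using hstep
  let C : ℕ → AddSubgroup X := fun n => Nat.rec (nx 0 ⊤) (fun n C => nx (n + 1) C) n
  have hC0 : C 0 = nx 0 ⊤ := rfl
  have hCs : ∀ n, C (n + 1) = nx (n + 1) (C n) := fun n => rfl
  have htop : ∀ x : X, ∃ c ∈ (⊤ : AddSubgroup X), x - c ∈ H :=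
    fun x => ⟨x, trivial, by rw [sub_self]; exact H.zero_mem⟩
  have key : ∀ n, U n ≤ C n ∧ (∀ x, ∃ c ∈ C n, x - c ∈ H) ∧
      ∃ F : Finset X, ∀ c ∈ C n, ∃ f ∈ F, c - f ∈ U n := by
    intro n
    induction n with
    | zero =>
      rw [hC0]
      exact ⟨hnx2 0 ⊤ le_top htop, hnx3 0 ⊤ le_top htop, hnx4 0 ⊤ le_top htop⟩
    | succ n ih =>
      rw [hCs]
      have h1 : U (n + 1) ≤ C n := (hU (Nat.le_succ n)).trans ih.1
      exact ⟨hnx2 _ _ h1 ih.2.1, hnx3 _ _ h1 ih.2.1, hnx4 _ _ h1 ih.2.1⟩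
  refine ⟨C, antitone_nat_of_succ_le fun n => ?_, fun n => (key n).1, fun n => (key n).2.1,
    fun n => (key n).2.2⟩
  rw [hCs]
  exact hnx1 _ _ ((hU (Nat.le_succ n)).trans (key n).1) (key n).2.1

/-- A closed subgroup, Artinian modulo all open subgroups, that together with `H` generates
the group. -/
theorem exists_core (hX : LinComplete X) (hA : CondA X)
    (ht : ∀ (N : OpenAddSubgroup X) (x : X), ∃ n : ℕ, 0 < n ∧ n • x ∈ N) (H : AddSubgroup X)
    (hH : IsClosed (H : Set X))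
    (hfin : ∀ N : OpenAddSubgroup X, ∃ F : Finset X, ∀ x, ∃ f ∈ F, ∃ h ∈ H, x - f - h ∈ N) :
    ∃ B₀ : AddSubgroup X, IsClosed (B₀ : Set X) ∧
      (∀ N : OpenAddSubgroup X, IsArtinian ℤ (B₀ ⧸ (N : AddSubgroup X).addSubgroupOf B₀)) ∧
      ∀ x, ∃ b ∈ B₀, x - b ∈ H := by
  classical
  obtain ⟨U, hU, hUo, hN⟩ := hA
  obtain ⟨C, hC, hUC, hCH, hCF⟩ := exists_core_seq hU hUo ht H hfin
  have hCo : ∀ n, IsOpen (C n : Set X) := fun n => AddSubgroup.isOpen_mono (hUC n) (hUo n)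
  have hCc : ∀ n, IsClosed (C n : Set X) := fun n => AddSubgroup.isClosed_of_isOpen _ (hCo n)
  refine ⟨⨅ n, C n, ?_, fun N => ?_, fun x => ?_⟩
  · rw [AddSubgroup.coe_iInf]
    exact isClosed_iInter hCc
  · obtain ⟨n, hn⟩ := hN (N : AddSubgroup X) N.isOpen
    obtain ⟨F, hF⟩ := hCF n
    exact isArtinian_mono (iInf_le C n) le_rfl (isArtinian_of_finite_ext (hUC n) hF hn)
  · -- points of the cosets
    choose c hc1 hc2 using fun m => hCH m x
    choose F hF using hCF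
    -- the cosets of `U n`
    let 𝓤 : Ultrafilter ℕ := Filter.hyperfilter ℕ
    have hge : ∀ n : ℕ, {m | n ≤ m} ∈ 𝓤 := fun n =>
      Nat.hyperfilter_le_atTop (Filter.mem_atTop n)
    have h1 : ∀ n, ∃ f ∈ F n, {m | c m - f ∈ U n} ∈ 𝓤 := by
      intro n
      have h2 : (⋃ f ∈ F n, {m | c m - f ∈ U n}) ∈ 𝓤 := by
        refine Filter.mem_of_superset (hge n) ?_
        intro m hm
        obtain ⟨f, hf, h3⟩ := hF n (c m) (hC hm (hc1 m))
        exact Set.mem_biUnion (x := f) hf h3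
      exact (Ultrafilter.finite_biUnion_mem_iff (F n).finite_toSet).1 h2
    choose y hy1 hy2 using h1
    have h2 : ∀ n, ∃ m, n ≤ m ∧ c m - y n ∈ U n := by
      intro n
      have h3 : {m | n ≤ m} ∩ {m | c m - y n ∈ U n} ∈ 𝓤 :=
        Filter.inter_mem (hge n) (hy2 n)
      obtain ⟨m, hm⟩ := Ultrafilter.nonempty_of_mem h3
      exact ⟨m, hm⟩
    choose ν hν1 hν2 using h2
    have hyy : ∀ n, y (n + 1) - y n ∈ U n := by
      intro n
      obtain ⟨m, hm1, hm2⟩ := Ultrafilter.nonempty_of_mem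
        (Filter.inter_mem (hy2 n) (hy2 (n + 1)))
      have h3 := (U n).sub_mem hm1 (hU (Nat.le_succ n) hm2)
      rwa [sub_sub_sub_cancel_left] at h3
    obtain ⟨V, hV⟩ : ∃ V : ℕ → OpenAddSubgroup X, GoodSeq X V ∧ ∀ n, (V n : AddSubgroup X) = U n :=
      ⟨fun n => ⟨U n, hUo n⟩, ⟨fun m n hmn => hU hmn, fun N => by
        obtain ⟨n, hn⟩ := hN (N : AddSubgroup X) N.isOpen
        exact ⟨n, artCond_of_isArtinian hn⟩⟩, fun n => rfl⟩
    obtain ⟨w, hw⟩ := exists_mem_iInter hX hV.1 (fun n => c (ν n)) (fun n => H ⊓ U n)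
      (fun n => hH.inter (AddSubgroup.isClosed_of_isOpen _ (hUo n)))
      (fun n => by rw [hV.2]; exact inf_le_right)
      (fun m n hmn => inf_le_inf_left _ (hU hmn)) (fun n => by
        rw [mem_cst]
        refine ⟨?_, ?_⟩
        · have h3 := H.sub_mem (hc2 (ν n)) (hc2 (ν (n + 1)))
          rwa [sub_sub_sub_cancel_left] at h3
        · have h3 := (U n).add_mem (hU (Nat.le_succ n) (hν2 (n + 1))) (hyy n)
          have h4 := (U n).sub_mem h3 (hν2 n)
          have h5 : c (ν (n + 1)) - y (n + 1) + (y (n + 1) - y n) - (c (ν n) - y n) =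
            c (ν (n + 1)) - c (ν n) := by abel
          rwa [h5] at h4)
    refine ⟨w, ?_, ?_⟩
    · rw [AddSubgroup.mem_iInf]
      intro n
      have h3 : w - c (ν n) ∈ U n := (hw n).2
      have h4 := (C n).add_mem (hUC n h3) (hC (hν1 n) (hc1 (ν n)))
      rwa [sub_add_cancel] at h4
    · have h3 : w - c (ν 0) ∈ H := (hw 0).1
      have h4 := H.sub_mem (hc2 (ν 0)) h3
      have h5 : x - c (ν 0) - (w - c (ν 0)) = x - w := by abel
      rwa [h5] at h4

end

end Pool.Agent.Work.MP_c629c8_al
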